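import Pool.Agent.H16.LP.Main

/-!
# Lemma LP: the theorem
-/

set_option autoImplicit false

namespace Pool.LPX

open Finset Real
open Pool.Agent.H49.Ent Pool.Agent.H32.Dense Pool.STK Pool.POT Pool.TQ
open Pool.K2S (Pe)

variable {Ω β Λ υ σ : Type} [Fintype Ω]

open Classical in
/-- Two copies are usually near: few values. -/
theorem near_int {p : Ω → ℝ} (hp : IsLaw p) (b : Ω → β) (V : Ω → ℤ) {M L δ : ℝ} (hM : 0 ≤ M)
    (hL : 0 ≤ L) (hV : ∀ ω, 0 < p ω → |(V ω : ℝ)| ≤ L)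
    (hδ : Ex (dbl p b) (fun w => if |(V w.1 : ℝ) - V w.2| ≤ M then 0 else 1) ≤ δ) :
    CH p V b ≤ Real.log 2 + Real.log (2 * M + 1) + δ * Real.log (2 * L + 1) := by
  refine Pool.KAL.FRM.near hp b V (fun x => Finset.Icc (x - ⌊M⌋) (x + ⌊M⌋))
    (fun _ => Finset.Icc (-⌊L⌋) ⌊L⌋) (by linarith) (by linarith) ?_ ?_ ?_ ?_
  · intro x
    rw [Int.card_Icc]
    have h1 : x + ⌊M⌋ + 1 - (x - ⌊M⌋) = 2 * ⌊M⌋ + 1 := by ring
    have h2 : (0 : ℤ) ≤ ⌊M⌋ := Int.floor_nonneg.2 hM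
    rw [h1]
    have h3 : (((2 * ⌊M⌋ + 1).toNat : ℕ) : ℝ) = ((2 * ⌊M⌋ + 1 : ℤ) : ℝ) := by
      have := Int.toNat_of_nonneg (by omega : 0 ≤ 2 * ⌊M⌋ + 1)
      exact_mod_cast this
    rw [h3]
    push_cast
    linarith [Int.floor_le M]
  · intro ω hω
    have h1 := abs_le.1 (hV ω hω)
    rw [Finset.mem_Icc]
    refine ⟨?_, Int.le_floor.2 h1.2⟩
    have h2 : -V ω ≤ ⌊L⌋ := by
      rw [Int.le_floor]
      push_cast
      linarith
    omega
  · intro ω _
    rw [Int.card_Icc]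
    have h2 : (0 : ℤ) ≤ ⌊L⌋ := Int.floor_nonneg.2 hL
    have h1 : ⌊L⌋ + 1 - -⌊L⌋ = 2 * ⌊L⌋ + 1 := by ring
    rw [h1]
    have h3 : (((2 * ⌊L⌋ + 1).toNat : ℕ) : ℝ) = ((2 * ⌊L⌋ + 1 : ℤ) : ℝ) := by
      have := Int.toNat_of_nonneg (by omega : 0 ≤ 2 * ⌊L⌋ + 1)
      exact_mod_cast this
    rw [h3]
    push_cast
    linarith [Int.floor_le L]
  · refine le_trans (le_of_eq ?_) hδ
    congr 1
    funext w
    have : V w.1 ∈ Finset.Icc (V w.2 - ⌊M⌋) (V w.2 + ⌊M⌋) ↔ |(V w.1 : ℝ) - V w.2| ≤ M := by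
      rw [Finset.mem_Icc, abs_le]
      constructor
      · rintro ⟨h1, h2⟩
        have e1 : ((V w.2 - ⌊M⌋ : ℤ) : ℝ) ≤ V w.1 := by exact_mod_cast h1
        have e2 : (V w.1 : ℝ) ≤ ((V w.2 + ⌊M⌋ : ℤ) : ℝ) := by exact_mod_cast h2
        push_cast at e1 e2
        have := Int.floor_le M
        constructor <;> linarith
      · rintro ⟨h1, h2⟩
        have e1 : V w.1 - V w.2 ≤ ⌊M⌋ := by
          rw [Int.le_floor]
          push_cast
          linarith
        have e2 : V w.2 - V w.1 ≤ ⌊M⌋ := by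
          rw [Int.le_floor]
          push_cast
          linarith
        constructor <;> omega
    simp only [this]

open Classical in
/-- The mass outside the large cells. -/
theorem bad_le {q : Ω → ℝ} (N : ℕ) (I J : Ω → ℕ) (hI : ∀ ω, I ω ≤ N)
    (hJ : ∀ ω, J ω ≤ N) {ϖ : ℝ} (hϖ : 0 ≤ ϖ) (P : ℕ → ℕ → Prop)
    (hP : ∀ i j, ϖ ≤ Pe q (fun ω => I ω = i ∧ J ω = j) → P i j) :
    Ex q (fun ω => if P (I ω) (J ω) then 0 else 1) ≤ (N + 1) ^ 2 * ϖ := by
  have h1 : Ex q (fun ω => if P (I ω) (J ω) then 0 else 1) =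
      ∑ i ∈ range (N + 1), ∑ j ∈ range (N + 1), (if P i j then 0 else
        Pe q (fun ω => I ω = i ∧ J ω = j)) := by
    have e1 : ∀ ω, q ω * (if P (I ω) (J ω) then (0 : ℝ) else 1) =
        ∑ i ∈ range (N + 1), ∑ j ∈ range (N + 1), (if P i j then 0 else
          (if I ω = i ∧ J ω = j then q ω else 0)) := by
      intro ω
      rw [Finset.sum_eq_single (I ω), Finset.sum_eq_single (J ω)]
      · simp
      · intro j _ hj
        rw [if_neg (fun h : I ω = I ω ∧ J ω = j => hj h.2.symm)]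
        split_ifs <;> rfl
      · intro hc
        exact absurd (Finset.mem_range.2 (Nat.lt_succ_of_le (hJ ω))) hc
      · intro i _ hi
        refine Finset.sum_eq_zero fun j _ => ?_
        rw [if_neg (fun h : I ω = i ∧ J ω = j => hi h.1.symm)]
        split_ifs <;> rfl
      · intro hc
        exact absurd (Finset.mem_range.2 (Nat.lt_succ_of_le (hI ω))) hc
    unfold Ex
    rw [Finset.sum_congr rfl fun ω _ => e1 ω, Finset.sum_comm]
    refine Finset.sum_congr rfl fun i _ => ?_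
    rw [Finset.sum_comm]
    refine Finset.sum_congr rfl fun j _ => ?_
    split_ifs with h
    · simp
    · unfold Pool.K2S.Pe law
      refine Finset.sum_congr rfl fun ω _ => ?_
      simp
  rw [h1]
  have h2 : ∀ i ∈ range (N + 1), ∑ j ∈ range (N + 1), (if P i j then 0 else
        Pe q (fun ω => I ω = i ∧ J ω = j)) ≤ (N + 1) * ϖ := by
    intro i _
    have : ∀ j ∈ range (N + 1), (if P i j then 0 else
        Pe q (fun ω => I ω = i ∧ J ω = j)) ≤ ϖ := by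
      intro j _
      split_ifs with h
      · exact hϖ
      · by_contra hc
        exact h (hP i j (not_le.1 hc).le)
    refine (Finset.sum_le_sum this).trans ?_
    rw [Finset.sum_const, Finset.card_range, nsmul_eq_mul]
    push_cast
    exact le_rfl
  refine (Finset.sum_le_sum h2).trans ?_
  rw [Finset.sum_const, Finset.card_range, nsmul_eq_mul]
  push_cast
  exact le_of_eq (by ring)

variable {p : Ω → ℝ} {B : Ω → β} {ln : Ω → Λ} {Y : Ω → υ} {S : Ω → σ} {t U Z du dz : Ω → ℤ}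
  {au az : Ω → ℝ} {Nb : υ → Finset υ} {X : ℕ} {C θ h ϖ d κ₀ : ℝ}

/-- LP with all the numbers. -/
theorem lp_num (H : LpOk p B ln Y S t U Z du dz au az Nb X C θ h ϖ d κ₀) (hC : 1 ≤ C)
    (hθ0 : 0 < θ) (hθ1 : θ < 1) (hh0 : 0 < h) (hh1 : h ≤ 1) (hϖ : 0 ≤ ϖ) (hd : 0 ≤ d) {g N Kn : ℕ}
    (hN : X ≤ N * g) (hKn : 0 < Kn) {ϖ' : ℝ} (hϖ' : 0 < ϖ') {e : ℝ}
    (he : Er X g Kn C ϖ' ϖ d ≤ e * (h * Real.log 2)) {n : ℕ}
    (hn : (2 * e + 2) / (1 - θ) + 1 + e ≤ n) (he0 : 0 ≤ e) :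
    CH p dz B ≤ Real.log 2 + (Real.log (11 * C) + n * Real.log 2) +
        ((N + 1) ^ 2 * ϖ') * (Real.log (5 * C) + X * Real.log 2) ∧
      CH p (fun ω => tp X ⌊θ * X⌋₊ (du ω)) B ≤
        Real.log 2 + (Real.log (11 * C) + n * Real.log 2) +
        ((N + 1) ^ 2 * ϖ') * (Real.log (5 * C) + X * Real.log 2) := by
  classical
  have hp := H.ok.law
  have h0 := hp.nonneg
  have hq := q3_law (B := B) (ln := ln) hp
  set q := q3 p B ln with hqd
  set P : ℕ → ℕ → Prop := fun i j => X ≤ j * g + n ∧ ⌊θ * X⌋₊ ≤ i * g + n with hP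
  set I : (Ω × Ω) × Ω → ℕ := fun w => idx (4 * C) g N (sl X du w) with hI
  set J : (Ω × Ω) × Ω → ℕ := fun w => idx (4 * C) g N (sl X dz w) with hJ
  have hbad := bad_le (q := q) N I J (fun _ => idx_le _ _ _ _) (fun _ => idx_le _ _ _ _) hϖ'.le P (by
    intro i j hij
    obtain ⟨h1, h2⟩ := cell_ok H hC hθ0 hθ1 hh0 hh1 hϖ hd hN hKn hϖ' i j hij he
    have hX : (0 : ℝ) ≤ X := Nat.cast_nonneg X
    constructor
    · have : (X : ℝ) ≤ ((j * g + n : ℕ) : ℝ) := by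
        push_cast at h1 ⊢
        linarith
      exact_mod_cast this
    · have h3 := Nat.floor_le (by positivity : 0 ≤ θ * (X : ℝ))
      have : ((⌊θ * X⌋₊ : ℕ) : ℝ) ≤ ((i * g + n : ℕ) : ℝ) := by
        push_cast at h2 ⊢
        linarith
      exact_mod_cast this)
  have hpow : (1 : ℝ) ≤ 2 ^ n := one_le_pow₀ (by norm_num)
  have hpowX : (1 : ℝ) ≤ 2 ^ X := one_le_pow₀ (by norm_num)
  have hlog1 : ∀ M : ℝ, 0 ≤ M → M ≤ 4 * C * 2 ^ n + 1 →
      Real.log (2 * M + 1) ≤ Real.log (11 * C) + n * Real.log 2 := by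
    intro M hM0 hM
    rw [← Real.log_pow, ← Real.log_mul (by positivity) (by positivity)]
    refine Real.log_le_log (by linarith) ?_
    nlinarith
  have hlog2 : ∀ L : ℝ, 0 ≤ L → L ≤ C * 2 ^ X + 1 →
      Real.log (2 * L + 1) ≤ Real.log (5 * C) + X * Real.log 2 := by
    intro L hL0 hL
    rw [← Real.log_pow, ← Real.log_mul (by positivity) (by positivity)]
    refine Real.log_le_log (by linarith) ?_
    nlinarith
  have hϖN : 0 ≤ ((N : ℝ) + 1) ^ 2 * ϖ' := by positivity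
  -- transport to the pair
  have hpair : ∀ (V : Ω → ℤ) (M : ℝ), (∀ w : (Ω × Ω) × Ω, 0 < q w → P (I w) (J w) →
      |(V w.1.1 : ℝ) - V w.1.2| ≤ M) →
      Ex (dbl p B) (fun w => if |(V w.1 : ℝ) - V w.2| ≤ M then 0 else 1) ≤ (N + 1) ^ 2 * ϖ' := by
    intro V M hVM
    have e1 := (q3_12 (B := B) (ln := ln) h0).Ex
      (fun w : Ω × Ω => if |(V w.1 : ℝ) - V w.2| ≤ M then (0 : ℝ) else 1)
    rw [← e1]
    refine le_trans (Ex_mono hq.nonneg fun w hw => ?_) hbad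
    by_cases h1 : P (I w) (J w)
    · rw [if_pos (hVM w hw h1)]
      split_ifs <;> norm_num
    · rw [if_neg h1]
      split_ifs <;> norm_num
  -- the differences of the velocities
  have hdif : ∀ (dv : Ω → ℤ) (a : ℕ) (w : (Ω × Ω) × Ω), |sl X dv w| * 2 ^ a ≤ 4 * C →
      |(dv w.1.1 : ℝ) - dv w.1.2| ≤ 4 * C * 2 ^ (X - a) := by
    intro dv a w h1
    have h2 := pow_sub_le (X := X) (by linarith : (0 : ℝ) ≤ 4 * C) h1
    have hPX : (0 : ℝ) < 2 ^ X := by positivity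
    have h3 : |sl X dv w| * 2 ^ X = |(dv w.1.1 : ℝ) - dv w.1.2| := by
      unfold sl
      rw [abs_neg, abs_div, abs_of_pos hPX, div_mul_cancel₀ _ hPX.ne', abs_sub_comm]
    rwa [h3] at h2
  have hz : ∀ w : (Ω × Ω) × Ω, 0 < q w → P (I w) (J w) →
      |(dz w.1.1 : ℝ) - dz w.1.2| ≤ 4 * C * 2 ^ n := by
    intro w hw hPw
    obtain ⟨x1, x2, -⟩ := q3_pos h0 hw
    have h1 : |sl X dz w| ≤ 4 * C := (H.z.sl_le x1 x2).trans (by linarith)
    have h2 : |sl X dz w| * 2 ^ (J w * g) ≤ 4 * C := idx_spec h1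
    refine (hdif dz (J w * g) w h2).trans ?_
    refine mul_le_mul_of_nonneg_left (pow_le_pow_right₀ (by norm_num) ?_) (by positivity)
    have h3 : X ≤ J w * g + n := hPw.1
    omega
  have hu : ∀ w : (Ω × Ω) × Ω, 0 < q w → P (I w) (J w) →
      |(tp X ⌊θ * X⌋₊ (du w.1.1) : ℝ) - tp X ⌊θ * X⌋₊ (du w.1.2)| ≤ 4 * C * 2 ^ n + 1 := by
    intro w hw hPw
    obtain ⟨x1, x2, -⟩ := q3_pos h0 hw
    have h1 : |sl X du w| ≤ 4 * C := (H.u.sl_le x1 x2).trans (by linarith)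
    have h2 : |sl X du w| * 2 ^ (I w * g) ≤ 4 * C := idx_spec h1
    have e1 := hdif du (I w * g) w h2
    rw [← Int.cast_sub]
    refine tp_near X ⌊θ * X⌋₊ (du w.1.1) (du w.1.2) (L := 4 * C * 2 ^ n) ?_
    refine e1.trans ?_
    rw [mul_assoc (4 * C) (2 ^ n), ← pow_add]
    refine mul_le_mul_of_nonneg_left (pow_le_pow_right₀ (by norm_num) ?_) (by positivity)
    have h3 : ⌊θ * X⌋₊ ≤ I w * g + n := hPw.2
    omega
  constructor
  · have h1 := near_int hp B dz (M := 4 * C * 2 ^ n) (L := C * 2 ^ X) (by positivity)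
      (by positivity) H.z.siz (hpair dz (4 * C * 2 ^ n) hz)
    refine h1.trans ?_
    have h2 := hlog1 (4 * C * 2 ^ n) (by positivity) (by linarith)
    have h3 := mul_le_mul_of_nonneg_left (hlog2 (C * 2 ^ X) (by positivity) (by linarith)) hϖN
    linarith only [h2, h3]
  · have h1 := near_int hp B (fun ω => tp X ⌊θ * X⌋₊ (du ω)) (M := 4 * C * 2 ^ n + 1)
      (L := C * 2 ^ X + 1) (by positivity) (by positivity) (by
        intro ω hω
        have e1 := H.u.siz ω hω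
        have e2 := tp_near X ⌊θ * X⌋₊ (du ω) 0 (L := C * 2 ^ X) (by
          push_cast
          rw [sub_zero]
          refine e1.trans ?_
          exact le_mul_of_one_le_right (by positivity) (one_le_pow₀ (by norm_num)))
        have e3 : tp X ⌊θ * X⌋₊ 0 = 0 := by
          unfold tp
          simp
        rw [e3] at e2
        push_cast at e2
        rw [sub_zero] at e2
        exact e2) (hpair (fun ω => tp X ⌊θ * X⌋₊ (du ω)) (4 * C * 2 ^ n + 1) hu)
    refine h1.trans ?_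
    have h2 := hlog1 (4 * C * 2 ^ n + 1) (by positivity) le_rfl
    have h3 := mul_le_mul_of_nonneg_left (hlog2 (C * 2 ^ X + 1) (by positivity) le_rfl) hϖN
    linarith only [h2, h3]

/-- **Lemma LP.** The velocity of the fast coordinate to `X` digits and that of the slow one to
`θ X` digits are few bits given the ball. -/
theorem lp_pair (C θ h ε : ℝ) (hC : 1 ≤ C) (hθ0 : 0 < θ) (hθ1 : θ < 1) (hh0 : 0 < h)
    (hh1 : h ≤ 1) (hε : 0 < ε) : ∃ κ ϖ : ℝ, 0 < κ ∧ 0 < ϖ ∧ ∃ X₀ : ℕ,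
    ∀ {Ω β Λ υ σ : Type} [Fintype Ω] {p : Ω → ℝ} {B : Ω → β} {ln : Ω → Λ} {Y : Ω → υ} {S : Ω → σ}
    {t U Z du dz : Ω → ℤ} {au az : Ω → ℝ} {Nb : υ → Finset υ} {X : ℕ} {d κ₀ : ℝ},
    LpOk p B ln Y S t U Z du dz au az Nb X C θ h ϖ d κ₀ → X₀ ≤ X → 0 ≤ d → d ≤ κ * X →
    CH p dz B ≤ ε * X ∧ CH p (fun ω => tp X ⌊θ * X⌋₊ (du ω)) B ≤ ε * X := by
  have hl2 : 0 < Real.log 2 := Real.log_pos (by norm_num)
  have hl2' : Real.log 2 ≤ 1 := by
    have := Real.log_le_sub_one_of_pos (by norm_num : (0 : ℝ) < 2)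
    linarith
  have hθ' : 0 < 1 - θ := by linarith
  set Q := 3 / (h * (1 - θ)) with hQ
  have hQ0 : 0 < Q := by positivity
  set η := ε / (16 * Q) with hη
  have hη0 : 0 < η := by positivity
  set N := ⌈2 / η⌉₊ with hN
  have hNη : 2 / η ≤ N := Nat.le_ceil _
  set ϖ' := ε / (8 * ((N : ℝ) + 1) ^ 2) with hϖ'
  have hϖ'0 : 0 < ϖ' := by positivity
  set Kn := ⌈16 * Q / (ε * ϖ')⌉₊ + 1 with hKn
  have hKn0 : 0 < Kn := Nat.succ_pos _
  have hKnr : 16 * Q / (ε * ϖ') ≤ Kn := by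
    have := Nat.le_ceil (16 * Q / (ε * ϖ'))
    rw [hKn]
    push_cast
    linarith
  set ϖ := ε * ϖ' / (16 * Q) with hϖ
  have hϖ0 : 0 < ϖ := by positivity
  set κ := ε / (8 * Q * (1 + 4 / ϖ')) with hκ
  have hκ0 : 0 < κ := by positivity
  set c0 := Q * ((1 / ϖ' / Kn + 1 / ϖ' * ϖ) * Real.log 5 + Real.log (Kn + 1) +
    4 * Real.log (36 * C)) + 5 * Q + Real.log 2 + Real.log (11 * C) +
    ((N : ℝ) + 1) ^ 2 * ϖ' * Real.log (5 * C) with hc0
  refine ⟨κ, ϖ, hκ0, hϖ0, max ⌈2 / η⌉₊ ⌈8 * c0 / ε⌉₊, ?_⟩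
  intro Ω β Λ υ σ _ p B ln Y S t U Z du dz au az Nb X d κ₀ H hX hd hdκ
  have hX1 : 2 / η ≤ X := by
    have h1 : ⌈2 / η⌉₊ ≤ X := (le_max_left _ _).trans hX
    exact (Nat.le_ceil _).trans (by exact_mod_cast h1)
  have hX2 : 8 * c0 / ε ≤ X := by
    have h1 : ⌈8 * c0 / ε⌉₊ ≤ X := (le_max_right _ _).trans hX
    exact (Nat.le_ceil _).trans (by exact_mod_cast h1)
  have hX0 : (0 : ℝ) ≤ X := Nat.cast_nonneg X
  have hηX : 2 ≤ η * X := by
    rw [div_le_iff₀ hη0] at hX1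
    linarith
  set g := ⌊η * X⌋₊ with hg
  have hg1 : (g : ℝ) ≤ η * X := Nat.floor_le (by positivity)
  have hg2 : η * X / 2 ≤ g := by
    have := Nat.lt_floor_add_one (η * (X : ℝ))
    linarith
  have hNg : X ≤ N * g := by
    have h1 : (X : ℝ) ≤ N * g := by
      have h2 : 2 / η * (η * X / 2) ≤ N * g :=
        mul_le_mul hNη hg2 (by positivity) (Nat.cast_nonneg N)
      have h3 : 2 / η * (η * X / 2) = X := by field_simp
      linarith
    exact_mod_cast h1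
  set E := Er X g Kn C ϖ' ϖ d with hE
  have hlK : 0 ≤ Real.log ((Kn : ℝ) + 1) := Real.log_nonneg (by
    have : (0 : ℝ) ≤ Kn := Nat.cast_nonneg _
    linarith)
  have hl5 : 0 ≤ Real.log 5 := Real.log_nonneg (by norm_num)
  have hl36 : 0 ≤ Real.log (36 * C) := Real.log_nonneg (by linarith)
  have hl5C : 0 ≤ Real.log (5 * C) := Real.log_nonneg (by linarith)
  have hE0 : 0 ≤ E := by
    rw [hE]
    unfold Er
    positivity
  set e := E / (h * Real.log 2) with he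
  have he0 : 0 ≤ e := by positivity
  have heE : E ≤ e * (h * Real.log 2) := by
    rw [he, div_mul_cancel₀ _ (by positivity)]
  set n := ⌈(2 * e + 2) / (1 - θ) + 1 + e⌉₊ with hn
  have hn1 : (2 * e + 2) / (1 - θ) + 1 + e ≤ n := Nat.le_ceil _
  have hn2 : (n : ℝ) ≤ (2 * e + 2) / (1 - θ) + 2 + e := by
    have := (Nat.ceil_lt_add_one (by positivity : 0 ≤ (2 * e + 2) / (1 - θ) + 1 + e)).le
    linarith
  have key := lp_num H hC hθ0 hθ1 hh0 hh1 hϖ0.le hd hNg hKn0 hϖ'0 heE hn1 he0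
  -- the numbers
  have hnl : n * Real.log 2 ≤ Q * E + 5 * Q := by
    have h1 : (n : ℝ) ≤ (3 * e + 4) / (1 - θ) := by
      refine hn2.trans ?_
      have h2 : 2 + e ≤ (2 + e) / (1 - θ) := by
        rw [le_div_iff₀ hθ']
        nlinarith
      have h3 : (2 * e + 2) / (1 - θ) + (2 + e) / (1 - θ) = (3 * e + 4) / (1 - θ) := by
        rw [← add_div]
        congr 1
        ring
      linarith
    have h2 := mul_le_mul_of_nonneg_right h1 hl2.le
    refine h2.trans ?_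
    have h3 : (3 * e + 4) / (1 - θ) * Real.log 2 =
        3 * (e * (h * Real.log 2)) / (h * (1 - θ)) + 4 * Real.log 2 / (1 - θ) := by
      field_simp
    have h4 : e * (h * Real.log 2) = E := by rw [he, div_mul_cancel₀ _ (by positivity)]
    rw [h3, h4]
    have h5 : 3 * E / (h * (1 - θ)) = Q * E := by rw [hQ]; ring
    have h6 : 4 * Real.log 2 / (1 - θ) ≤ 5 * Q := by
      rw [hQ, div_le_iff₀ hθ']
      have h7 : 5 * (3 / (h * (1 - θ))) * (1 - θ) = 15 / h := by field_simp; norm_num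
      rw [h7]
      have h8 : (15 : ℝ) ≤ 15 / h := by
        rw [le_div_iff₀ hh0]
        linarith
      linarith
    linarith
  have hQE : Q * E ≤ ε / 8 * X + (ε / 8 * X + ε / 8 * X) + Q * ((1 / ϖ' / Kn + 1 / ϖ' * ϖ) *
      Real.log 5 + Real.log (Kn + 1) + 4 * Real.log (36 * C)) := by
    rw [hE]
    unfold Er
    have h1 : Q * (d + 4 * d / ϖ') ≤ ε / 8 * X := by
      have h2 : Q * (d + 4 * d / ϖ') = Q * (1 + 4 / ϖ') * d := by ring
      rw [h2]
      have h3 : Q * (1 + 4 / ϖ') * d ≤ Q * (1 + 4 / ϖ') * (κ * X) :=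
        mul_le_mul_of_nonneg_left hdκ (by positivity)
      have h4 : Q * (1 + 4 / ϖ') * (κ * X) = ε / 8 * X := by
        rw [hκ]
        field_simp
      linarith
    have h5 : Q * ((1 / ϖ' / Kn + 1 / ϖ' * ϖ) * (X * Real.log 2)) ≤ ε / 8 * X := by
      have h6 : Q * (1 / ϖ' / Kn) ≤ ε / 16 := by
        have h7 : 16 * Q ≤ Kn * (ε * ϖ') := by
          rwa [div_le_iff₀ (by positivity)] at hKnr
        have h8 : Q * (1 / ϖ' / Kn) = Q / (ϖ' * Kn) := by
          field_simp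
        rw [h8, div_le_iff₀ (by positivity)]
        linarith
      have h9 : Q * (1 / ϖ' * ϖ) = ε / 16 := by
        rw [hϖ]
        field_simp
      have h10 : Q * (1 / ϖ' / Kn + 1 / ϖ' * ϖ) ≤ ε / 8 := by
        rw [mul_add, h9]
        linarith
      have h11 : Q * ((1 / ϖ' / Kn + 1 / ϖ' * ϖ) * (X * Real.log 2)) =
          Q * (1 / ϖ' / Kn + 1 / ϖ' * ϖ) * (X * Real.log 2) := by ring
      rw [h11]
      refine (mul_le_mul_of_nonneg_right h10 (by positivity)).trans ?_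
      refine mul_le_mul_of_nonneg_left ?_ (by positivity)
      exact mul_le_of_le_one_right hX0 hl2'
    have h12 : Q * (2 * g * Real.log 2) ≤ ε / 8 * X := by
      have h13 : Q * (2 * g * Real.log 2) ≤ Q * (2 * (η * X) * 1) := by
        refine mul_le_mul_of_nonneg_left ?_ hQ0.le
        exact mul_le_mul (by linarith) hl2' hl2.le (by positivity)
      have h14 : Q * (2 * (η * X) * 1) = ε / 8 * X := by
        rw [hη]
        field_simp
        ring
      linarith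
    linarith
  have hN2 : ((N : ℝ) + 1) ^ 2 * ϖ' = ε / 8 := by
    rw [hϖ']
    field_simp
  have hc : c0 ≤ ε / 8 * X := by
    rw [div_le_iff₀ hε] at hX2
    linarith
  have htot : Real.log 2 + (Real.log (11 * C) + n * Real.log 2) +
      ((N + 1) ^ 2 * ϖ') * (Real.log (5 * C) + X * Real.log 2) ≤ ε * X := by
    have h1 : ((N : ℝ) + 1) ^ 2 * ϖ' * (X * Real.log 2) ≤ ε / 8 * X := by
      rw [hN2]
      refine mul_le_mul_of_nonneg_left ?_ (by positivity)
      exact mul_le_of_le_one_right hX0 hl2'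
    have h2 : ((N : ℝ) + 1) ^ 2 * ϖ' * (Real.log (5 * C) + X * Real.log 2) =
        ((N : ℝ) + 1) ^ 2 * ϖ' * Real.log (5 * C) + ((N : ℝ) + 1) ^ 2 * ϖ' * (X * Real.log 2) := by
      ring
    rw [h2]
    have h3 : 0 ≤ ε * X := by positivity
    rw [hc0] at hc
    linarith
  exact ⟨key.1.trans htot, key.2.trans htot⟩

end Pool.LPX
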