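import Pool.Agent.H16.LP.Alf

/-!
# Lemma LP when the velocities have their own digits

`ind`: the ball does not know more of the velocities than the natural digits `nat` (a function of
the line and a function of the ball), the path given.
-/

set_option autoImplicit false

namespace Pool.LPX

open Finset Real
open Pool.Agent.H49.Ent Pool.Agent.H32.Dense Pool.STK Pool.POT Pool.TQ
open Pool.K2S (Pe)

variable {Ω β Λ υ σ : Type} [Fintype Ω]

/-- **The time is full** given the line, the time of the third sample, the path of the copy and the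
difference of the velocities; the velocities may have their own digits. -/
theorem time_fullI {p : Ω → ℝ} {B : Ω → β} {ln : Ω → Λ} {Y : Ω → υ} {S : Ω → σ} {t : Ω → ℤ}
    {Nb : υ → Finset υ} {X : ℕ} {d κ₀ : ℝ} (h : Lp p B ln Y S t Nb X d κ₀) {δ ε ν : Type}
    (v : Ω → ε) (hv : Det p ln v) (nat : Ω → ν) (natl : Det p ln nat) (natB : Det p B nat)
    (ind : CH p v (fun ω => (Y ω, nat ω)) ≤ CH p v (fun ω => (Y ω, B ω)) + d)
    (k : Ω → Ω → δ) (f : ε → ε → δ) (hk : ∀ ω ω', k ω ω' = f (v ω) (v ω')) :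
    X * Real.log 2 - 4 * d ≤ CH (q3 p B ln) (fun w => t w.1.1) (Wq ln t Y k) := by
  classical
  have hp := h.law
  have h0 := hp.nonneg
  have hq := q3_law (B := B) (ln := ln) hp
  have hn := hq.nonneg
  set q := q3 p B ln with hqd
  -- the time given the line
  have e1 : CH q (fun w => t w.1.1) (fun w => ln w.1.1) = CH p t ln := (q3_1 h0).CH t ln
  -- the path of the copy
  have e2 : CH q (fun w => Y w.1.2) (fun w => ln w.1.1) ≤ κ₀ := by
    have g1 : CH q (fun w => Y w.1.2) (fun w => ln w.1.1) ≤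
        CH q (fun w => Y w.1.2) (fun w => Y w.1.1) :=
      CH_mono_cond hn fun w w' a b e => h.lY _ _ (q3_pos h0 a).1 (q3_pos h0 b).1 e
    refine g1.trans ?_
    have g2 := CH_le_card hn hq.sum_one (fun w => Y w.1.2) (fun w => Y w.1.1) Nb (by
      intro w hw
      obtain ⟨a1, a2, -, a4, -⟩ := q3_pos h0 hw
      exact h.nb _ _ a1 a2 a4)
    refine g2.trans ?_
    have g3 : ∀ w, 0 < q w → Real.log ((Nb (Y w.1.1)).card : ℝ) ≤ κ₀ := by
      intro w hw
      obtain ⟨a1, a2, -, a4, -⟩ := q3_pos h0 hw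
      have : 0 < (Nb (Y w.1.1)).card := Finset.card_pos.2 ⟨_, h.nb _ _ a1 a2 a4⟩
      have hc : (0 : ℝ) < (Nb (Y w.1.1)).card := by exact_mod_cast this
      rw [Real.log_le_iff_le_exp hc]
      exact h.card _
    have g4 := Ex_mono hn g3
    rwa [Ex_const hq.sum_one] at g4
  have cp : ∀ {θ : Type} (V : Ω → θ),
      CH q (fun w => V w.1.2) (fun w => (B w.1.2, (t w.1.1, ln w.1.1))) = CH p V B := by
    intro θ V
    have g3 := (q3_12 (B := B) (ln := ln) h0).CH (fun w : Ω × Ω => V w.2)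
      (fun w : Ω × Ω => (B w.2, (t w.1, ln w.1)))
    have g4 := CH_dbl_2 (b := B) h0 V (fun ω => (t ω, ln ω))
    exact g3.trans g4
  have e3 : κ₀ - d ≤ CH q (fun w => Y w.1.2) (fun w => (t w.1.1, ln w.1.1)) := by
    have g1 : CH q (fun w => Y w.1.2) (fun w => (B w.1.2, (t w.1.1, ln w.1.1))) ≤
        CH q (fun w => Y w.1.2) (fun w => (t w.1.1, ln w.1.1)) :=
      CH_mono_cond hn fun _ _ _ _ e => (Prod.ext_iff.mp e).2
    have g2 := cp Y
    linarith [h.full]
  -- the velocity of the copy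
  have e4 : MI q (fun w => t w.1.1) (fun w => k w.1.1 w.1.2) (fun w => (Y w.1.2, ln w.1.1)) ≤ d := by
    have a1 : CH q (fun w => t w.1.1) (fun w => (v w.1.2, (Y w.1.2, ln w.1.1))) ≤
        CH q (fun w => t w.1.1) (fun w => (k w.1.1 w.1.2, (Y w.1.2, ln w.1.1))) := by
      refine CH_mono_cond hn ?_
      intro w w' a b e
      simp only [Prod.mk.injEq] at e
      have := hv _ _ (q3_pos h0 a).1 (q3_pos h0 b).1 e.2.2
      simp only [hk, this, e.1, e.2.1, e.2.2]
    have a2 : MI q (fun w => t w.1.1) (fun w => v w.1.2) (fun w => (Y w.1.2, ln w.1.1)) =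
        MI q (fun w => v w.1.2) (fun w => t w.1.1) (fun w => (Y w.1.2, ln w.1.1)) :=
      MI_symm hn _ _ _
    have a3 : CH q (fun w => v w.1.2) (fun w => (Y w.1.2, ln w.1.1)) ≤
        CH p v (fun ω => (Y ω, nat ω)) := by
      have g1 : CH q (fun w => v w.1.2) (fun w => (Y w.1.2, ln w.1.1)) ≤
          CH q (fun w => v w.1.2) (fun w => (Y w.1.2, nat w.1.2)) := by
        refine CH_mono_cond hn ?_
        intro w w' a b e
        obtain ⟨x1, x2, -, x4, -⟩ := q3_pos h0 a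
        obtain ⟨y1, y2, -, y4, -⟩ := q3_pos h0 b
        simp only [Prod.mk.injEq] at e
        have e5 := natl _ _ x1 y1 e.2
        have e6 := natB _ _ x1 x2 x4
        have e7 := natB _ _ y1 y2 y4
        exact Prod.ext e.1 (e6.symm.trans (e5.trans e7))
      exact g1.trans (le_of_eq ((q3_2 h0).CH v (fun ω => (Y ω, nat ω))))
    have a4 : CH p v (fun ω => (Y ω, B ω)) ≤
        CH q (fun w => v w.1.2) (fun w => (t w.1.1, (Y w.1.2, ln w.1.1))) := by
      have g1 := CH_chain h0 v Y B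
      have g2 := CH_chain hn (fun w : (Ω × Ω) × Ω => v w.1.2) (fun w => Y w.1.2)
        (fun w => (B w.1.2, (t w.1.1, ln w.1.1)))
      have g3 := cp (fun ω => (v ω, Y ω))
      have g4 := cp Y
      have g5 : CH q (fun w => v w.1.2) (fun w => (Y w.1.2, (B w.1.2, (t w.1.1, ln w.1.1)))) ≤
          CH q (fun w => v w.1.2) (fun w => (t w.1.1, (Y w.1.2, ln w.1.1))) := by
        refine CH_mono_cond hn ?_
        intro w w' _ _ e
        simp only [Prod.mk.injEq] at e
        exact Prod.ext e.2.2.1 (Prod.ext e.1 e.2.2.2)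
      linarith
    unfold MI at a2 ⊢
    linarith
  -- the time given the line, the path of the copy, the velocity of the copy
  have e5 : X * Real.log 2 - 3 * d ≤
      CH q (fun w => t w.1.1) (fun w => (k w.1.1 w.1.2, (Y w.1.2, ln w.1.1))) := by
    have g1 : MI q (fun w => t w.1.1) (fun w => Y w.1.2) (fun w => ln w.1.1) ≤ d := by
      rw [MI_symm hn]
      unfold MI
      linarith
    unfold MI at g1 e4
    have := h.tf
    linarith
  -- the time of the third sample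
  have e6 : CH q (fun w => t w.2) (fun w => (ln w.2, w.1)) = CH p t ln := by
    have g := CH_glue_snd (Z₁ := fun w : Ω × Ω => ln w.2) (Z₂ := ln) (dbl_nonneg (b := B) h0) h0
      (hZ3 h0) t (Y := ln) (fun w : Ω × Ω => w) (fun _ _ _ _ e => e)
    exact g
  have e7 : CH q (fun w => t w.2) (fun w => (k w.1.1 w.1.2, (Y w.1.2, ln w.1.1))) ≤
      X * Real.log 2 := by
    have g := CH_le_card hn hq.sum_one (fun w => t w.2)
      (fun w => (k w.1.1 w.1.2, (Y w.1.2, ln w.1.1))) (fun _ => Finset.Ico (0 : ℤ) (2 ^ X)) (by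
        intro w hw
        obtain ⟨-, -, a3, -⟩ := q3_pos h0 hw
        rw [Finset.mem_Ico]
        exact h.t0 _ a3)
    rw [Ex_const hq.sum_one] at g
    refine g.trans (le_of_eq ?_)
    have : (Finset.Ico (0 : ℤ) (2 ^ X)).card = 2 ^ X := by
      rw [Int.card_Ico, sub_zero]
      have : ((2 : ℤ) ^ X) = ((2 ^ X : ℕ) : ℤ) := by push_cast; rfl
      rw [this, Int.toNat_natCast]
    rw [this]
    push_cast
    rw [Real.log_pow]
  have e8 : MI q (fun w => t w.1.1) (fun w => t w.2)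
      (fun w => (k w.1.1 w.1.2, (Y w.1.2, ln w.1.1))) ≤ d := by
    rw [MI_symm hn]
    unfold MI
    have g1 : CH q (fun w => t w.2) (fun w => (ln w.2, w.1)) ≤
        CH q (fun w => t w.2) (fun w => (t w.1.1, (k w.1.1 w.1.2, (Y w.1.2, ln w.1.1)))) := by
      refine CH_mono_cond hn ?_
      intro w w' _ _ e
      simp only [Prod.mk.injEq] at e
      simp only [e.2]
    have := h.tf
    linarith
  unfold MI at e8
  have e9 : CH q (fun w => t w.1.1)
      (fun w => (t w.2, (k w.1.1 w.1.2, (Y w.1.2, ln w.1.1)))) =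
      CH q (fun w => t w.1.1) (Wq ln t Y k) := by
    refine CH_congr hn ?_ ?_ ?_ ?_
    · intro w w' _ _ e
      exact (Prod.ext_iff.mp e).1
    · intro w w' _ _ e
      exact (Prod.ext_iff.mp e).1
    · intro w w' _ _ e
      unfold Wq
      simp only [Prod.mk.injEq] at e ⊢
      tauto
    · intro w w' _ _ e
      unfold Wq at e
      simp only [Prod.mk.injEq] at e ⊢
      tauto
  linarith

/-- All the hypotheses of LP, the velocities may have their own digits: `nat` are the digits known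
to the ball. -/
structure LpOi {ν : Type} (p : Ω → ℝ) (B : Ω → β) (ln : Ω → Λ) (Y : Ω → υ) (S : Ω → σ)
    (t U Z du dz : Ω → ℤ) (nat : Ω → ν) (au az : Ω → ℝ) (Nb : υ → Finset υ) (X : ℕ)
    (C θ h ϖ d κ₀ : ℝ) : Prop where
  ok : Lp p B ln Y S t Nb X d κ₀
  u : Crd p B ln t U du au X C
  z : Crd p B ln t Z dz az X C
  natl : Det p ln nat
  natB : Det p B nat
  ind : CH p (fun ω => (du ω, dz ω)) (fun ω => (Y ω, nat ω)) ≤
    CH p (fun ω => (du ω, dz ω)) (fun ω => (Y ω, B ω)) + d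
  nfz : NFz p U Z S X θ h ϖ d
  nfu : NFu p U Z S X θ h ϖ d

theorem LpOi.of {ν : Type} {p : Ω → ℝ} {B : Ω → β} {ln : Ω → Λ} {Y : Ω → υ} {S : Ω → σ}
    {t U Z du dz : Ω → ℤ} {nat : Ω → ν} {au az : Ω → ℝ} {Nb : υ → Finset υ} {X : ℕ}
    {C θ h ϖ d κ₀ : ℝ} (H : LpOi p B ln Y S t U Z du dz nat au az Nb X C θ h ϖ d κ₀) :
    LpOf p B ln Y S t U Z du dz au az Nb X C θ h ϖ d κ₀ where
  ok := H.ok
  u := H.u
  z := H.z
  full := time_fullI H.ok (fun ω => (du ω, dz ω))
    (fun ω ω' a b e => by rw [Prod.mk.injEq]; exact ⟨H.u.dd _ _ a b e, H.z.dd _ _ a b e⟩) nat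
    H.natl H.natB H.ind (kk du dz) (fun x y => (y.1 - x.1, y.2 - x.2)) (fun _ _ => rfl)
  nfz := H.nfz
  nfu := H.nfu

/-- **Lemma LP, alive or dead.** The velocity of the fast coordinate to `X` digits and that of the
slow one to `θ X` digits are few bits given the ball. -/
theorem lp_alive (C θ h ε : ℝ) (hC : 1 ≤ C) (hθ0 : 0 < θ) (hθ1 : θ < 1) (hh0 : 0 < h)
    (hh1 : h ≤ 1) (hε : 0 < ε) : ∃ κ ϖ : ℝ, 0 < κ ∧ 0 < ϖ ∧ ∃ X₀ : ℕ,
    ∀ {Ω β Λ υ σ ν : Type} [Fintype Ω] {p : Ω → ℝ} {B : Ω → β} {ln : Ω → Λ} {Y : Ω → υ}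
    {S : Ω → σ} {t U Z du dz : Ω → ℤ} {nat : Ω → ν} {au az : Ω → ℝ} {Nb : υ → Finset υ} {X : ℕ}
    {d κ₀ : ℝ}, LpOi p B ln Y S t U Z du dz nat au az Nb X C θ h ϖ d κ₀ → X₀ ≤ X → 0 ≤ d →
    d ≤ κ * X →
    CH p dz B ≤ ε * X ∧ CH p (fun ω => tp X ⌊θ * X⌋₊ (du ω)) B ≤ ε * X := by
  obtain ⟨κ, ϖ, h1, h2, X₀, h3⟩ := lp_pairF C θ h ε hC hθ0 hθ1 hh0 hh1 hε
  exact ⟨κ, ϖ, h1, h2, X₀, fun H hX hd hdκ => h3 H.of hX hd hdκ⟩

end Pool.LPX
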