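import Pool.Agent.H16.LP.Fin

/-!
# Lemma LP with velocities which have their own digits

The velocities need not be few bits given the path: it is enough that the ball does not know more of
them than the natural digits `nat`, which are a function of the line.
-/

set_option autoImplicit false

namespace Pool.LPX

open Finset Real
open Pool.Agent.H49.Ent Pool.Agent.H32.Dense Pool.STK Pool.POT Pool.TQ
open Pool.K2S (Pe)

variable {Ω β Λ υ σ : Type} [Fintype Ω]

/-- All the hypotheses, with the full time as a hypothesis. -/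
structure LpOf (p : Ω → ℝ) (B : Ω → β) (ln : Ω → Λ) (Y : Ω → υ) (S : Ω → σ) (t U Z du dz : Ω → ℤ)
    (au az : Ω → ℝ) (Nb : υ → Finset υ) (X : ℕ) (C θ h ϖ d κ₀ : ℝ) : Prop where
  ok : Lp p B ln Y S t Nb X d κ₀
  u : Crd p B ln t U du au X C
  z : Crd p B ln t Z dz az X C
  full : X * Real.log 2 - 4 * d ≤ CH (q3 p B ln) (fun w => t w.1.1) (Wq ln t Y (kk du dz))
  nfz : NFz p U Z S X θ h ϖ d
  nfu : NFu p U Z S X θ h ϖ d

section

variable {p : Ω → ℝ} {B : Ω → β} {ln : Ω → Λ} {Y : Ω → υ} {S : Ω → σ} {t U Z du dz : Ω → ℤ}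
  {au az : Ω → ℝ} {Nb : υ → Finset υ} {X : ℕ} {C θ h ϖ d κ₀ : ℝ}

/-- **The sizes in a large cell.** -/
theorem cell_okF (H : LpOf p B ln Y S t U Z du dz au az Nb X C θ h ϖ d κ₀) (hC : 1 ≤ C)
    (hθ0 : 0 < θ) (hθ1 : θ < 1) (hh0 : 0 < h) (hh1 : h ≤ 1) (hϖ : 0 ≤ ϖ) (hd : 0 ≤ d) {g N Kn : ℕ}
    (hN : X ≤ N * g) (hKn : 0 < Kn) {ϖ' : ℝ} (hϖ' : 0 < ϖ') (i j : ℕ)
    (hG : ϖ' ≤ Pe (q3 p B ln) (fun w => idx (4 * C) g N (sl X du w) = i ∧
      idx (4 * C) g N (sl X dz w) = j)) {e : ℝ}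
    (he : Er X g Kn C ϖ' ϖ d ≤ e * (h * Real.log 2)) :
    (X : ℝ) - (j * g : ℕ) ≤ (2 * e + 2) / (1 - θ) ∧
      θ * X - (i * g : ℕ) ≤ (2 * e + 2) / (1 - θ) + 1 + e := by
  classical
  have hp := H.ok.law
  have h0 := hp.nonneg
  have hq := q3_law (B := B) (ln := ln) hp
  set q := q3 p B ln with hqd
  set G : (Ω × Ω) × Ω → Prop := fun w => idx (4 * C) g N (sl X du w) = i ∧
      idx (4 * C) g N (sl X dz w) = j with hGd
  have hG0 : 0 < Pe q G := lt_of_lt_of_le hϖ' hG
  set W := Wq ln t Y (kk du dz) with hW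
  have hl2 : 0 < Real.log 2 := Real.log_pos (by norm_num)
  have hl9 : 0 ≤ Real.log (36 * C) := Real.log_nonneg (by linarith)
  have hC1 : 1 ≤ 4 * C := by linarith
  -- the relations
  have hU := crd_rel H.ok H.u (kk du dz) (fun z => z.1) (fun _ _ => rfl)
  have hZ := crd_rel H.ok H.z (kk du dz) (fun z => z.2) (fun _ _ => rfl)
  have full := H.full
  have hdG : Det q W G := by
    intro w w' a b e
    have e1 := hU.dk w w' a b e
    have e2 := hZ.dk w w' a b e
    have e3 : sl X du w = sl X du w' := e1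
    have e4 : sl X dz w = sl X dz w' := e2
    simp only [hGd, e3, e4]
  -- the law of the cell
  set r := cond q G True with hr
  have hrl : IsLaw r := cond_law hq.nonneg hG0
  have hrq : ∀ w, 0 < r w → 0 < q w := fun w hw => ((cond_pos_iff hq.nonneg G True w).1 hw).1
  have hrG : ∀ w, 0 < r w → G w := fun w hw => by
    have := ((cond_pos_iff hq.nonneg G True w).1 hw).2
    simpa using this
  have hUr := hU.mono hrq
  have hZr := hZ.mono hrq
  have ht0 : ∀ w, 0 < q w → 0 ≤ t w.1.1 ∧ t w.1.1 < 2 ^ X := fun w hw =>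
    H.ok.t0 _ (q3_pos h0 hw).1
  have ht : ∀ w, 0 < r w → 0 ≤ t w.1.1 ∧ t w.1.1 < 2 ^ X := fun w hw => ht0 w (hrq w hw)
  have fullr : X * Real.log 2 - 4 * d / ϖ' ≤ CH r (fun w => t w.1.1) W := by
    have h1 := time_ev hq (fun w => t w.1.1) W hdG ht0 full hG0
    refine le_trans ?_ h1
    have h2 : 4 * d / Pe q G ≤ 4 * d / ϖ' := div_le_div_of_nonneg_left (by positivity) hϖ' hG
    linarith
  -- sizes
  set a := i * g with ha
  set b := j * g with hb
  have su1 : ∀ w, 0 < r w → |sl X du w| * 2 ^ a ≤ 4 * C := by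
    intro w hw
    obtain ⟨x1, x2, -⟩ := q3_pos h0 (hrq w hw)
    have e1 := idx_spec (C := 4 * C) (g := g) (N := N) ((H.u.sl_le x1 x2).trans (by linarith))
    rw [(hrG w hw).1] at e1
    exact e1
  have sz1 : ∀ w, 0 < r w → |sl X dz w| * 2 ^ b ≤ 4 * C := by
    intro w hw
    obtain ⟨x1, x2, -⟩ := q3_pos h0 (hrq w hw)
    have e1 := idx_spec (C := 4 * C) (g := g) (N := N) ((H.z.sl_le x1 x2).trans (by linarith))
    rw [(hrG w hw).2] at e1
    exact e1
  have su2 : a < X → ∀ w, 0 < r w → 1 ≤ |sl X du w| * 2 ^ (a + g) := by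
    intro haX w hw
    have e1 := (hrG w hw).1
    have e2 : i < N := by
      by_contra hc
      have : N * g ≤ i * g := Nat.mul_le_mul_right g (not_lt.1 hc)
      omega
    have e3 := idx_low hC1 (g := g) (N := N) (x := sl X du w) (by rw [e1]; exact e2)
    rw [e1] at e3
    exact e3
  have sz2 : b < X → ∀ w, 0 < r w → 1 ≤ |sl X dz w| * 2 ^ (b + g) := by
    intro hbX w hw
    have e1 := (hrG w hw).2
    have e2 : j < N := by
      by_contra hc
      have : N * g ≤ j * g := Nat.mul_le_mul_right g (not_lt.1 hc)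
      omega
    have e3 := idx_low hC1 (g := g) (N := N) (x := sl X dz w) (by rw [e1]; exact e2)
    rw [e1] at e3
    exact e3
  -- the record of the third sample
  have hS : Det r W (fun w => S w.2) := by
    intro w w' x y e'
    obtain ⟨-, -, x3, -, x5⟩ := q3_pos h0 (hrq w x)
    obtain ⟨-, -, y3, -, y5⟩ := q3_pos h0 (hrq w' y)
    have e1 : t w.2 = t w'.2 := congrArg (fun z => z.2.1) e'
    have e2 : Y w.1.2 = Y w'.1.2 := congrArg (fun z => z.2.2.1) e'
    have e3 := H.ok.lY _ _ (q3_pos h0 (hrq w x)).2.1 x3 x5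
    have e4 := H.ok.lY _ _ (q3_pos h0 (hrq w' y)).2.1 y3 y5
    have e6 : Y w.2 = Y w'.2 := by rw [← e3, e2, e4]
    exact H.ok.SY _ _ x3 y3 (Prod.ext e6 e1)
  have h36 : (9 : ℝ) * (4 * C) = 36 * C := by ring
  have hEr0 : 0 ≤ Er X g Kn C ϖ' ϖ d := by
    unfold Er
    have e1 : 0 ≤ Real.log ((Kn : ℝ) + 1) := Real.log_nonneg (by
      have : (0 : ℝ) ≤ Kn := Nat.cast_nonneg _
      linarith)
    have e2 : 0 ≤ Real.log 5 := Real.log_nonneg (by norm_num)
    have e3 : 0 ≤ (1 / ϖ' / Kn + 1 / ϖ' * ϖ) * (X * Real.log 2 + Real.log 5) := by positivity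
    have e4 : 0 ≤ 4 * d / ϖ' := by positivity
    have e5 : 0 ≤ 2 * (g : ℝ) * Real.log 2 := by positivity
    linarith
  have he0 : 0 ≤ e := by
    by_contra hc
    push Not at hc
    have : e * (h * Real.log 2) < 0 := mul_neg_of_neg_of_pos hc (by positivity)
    linarith
  -- claim (a)
  have claimA : ∀ k m : ℕ, k ≤ X → k ≤ b → (m : ℝ) ≤ θ * k → (m : ℝ) ≤ a + e := by
    intro k m hkX hkb hm
    rcases Nat.lt_or_ge a m with ham | ham
    · have hmk : m ≤ k := by
        have h1 : (m : ℝ) ≤ k := by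
          have : θ * k ≤ 1 * k := mul_le_mul_of_nonneg_right hθ1.le (Nat.cast_nonneg k)
          linarith
        exact_mod_cast h1
      have hmX : m ≤ X := hmk.trans hkX
      have haX : a < X := lt_of_lt_of_le ham hmX
      set β := (1 - h) * ((m : ℝ) - a) * Real.log 2 + d with hβ
      have hma : (0 : ℝ) ≤ (m : ℝ) - a := by
        have : (a : ℝ) ≤ m := by exact_mod_cast ham.le
        linarith
      have hβ0 : 0 ≤ β := by
        have : 0 ≤ (1 - h) * ((m : ℝ) - a) * Real.log 2 :=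
          mul_nonneg (mul_nonneg (by linarith) hma) hl2.le
        linarith
      have hup := up_row hp hq (q3_3 h0) hϖ' hG hϖ (V := U) hmX ham.le
        (fun ω => (tp X k (Z ω), S ω)) hβ0 (fun G' hG' => H.nfu a k m ham.le hkX hm G' hG') hKn
      have hK : CH r (fun w => (tp X k (Z w.2), S w.2)) W ≤ Real.log (9 * (4 * C)) := by
        have g1 := CH_subadd hrl.nonneg (fun w => tp X k (Z w.2)) (fun w => S w.2) W
        rw [CH_eq_zero hrl.nonneg hS, add_zero] at g1
        refine g1.trans ?_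
        have g2 := hZr.few hrl hC1 ht sz1 (m := k) 0 (by omega)
        simpa using g2
      have g3 := disp_a hrl hUr hC1 ham.le hmX ht fullr su1 (su2 haX)
        (fun w => (tp X k (Z w.2), S w.2)) hK hup
      rw [h36] at g3
      have g4 : h * ((m : ℝ) - a) * Real.log 2 ≤ Er X g Kn C ϖ' ϖ d := by
        unfold Er
        have e5 : 0 ≤ (g : ℝ) * Real.log 2 := by positivity
        rw [hβ] at g3
        nlinarith
      have g5 : ((m : ℝ) - a) * (h * Real.log 2) ≤ e * (h * Real.log 2) := by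
        refine le_trans (le_of_eq ?_) (g4.trans he)
        ring
      have g6 := le_of_mul_le_mul_right g5 (by positivity)
      linarith
    · have : (m : ℝ) ≤ a := by exact_mod_cast ham
      linarith
  -- claim (b)
  have hθ' : 0 < 1 - θ := by linarith
  have claimB : (X : ℝ) - b ≤ (2 * e + 2) / (1 - θ) := by
    rcases Nat.lt_or_ge b X with hbX | hbX
    · -- the size of `a`
      have hA := claimA b ⌊θ * b⌋₊ hbX.le le_rfl (Nat.floor_le (by positivity))
      have hA1 := (Nat.lt_floor_add_one (θ * (b : ℝ))).le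
      set m := ⌈θ * X⌉₊ with hm
      have hmX : m ≤ X := by
        rw [hm, Nat.ceil_le]
        exact mul_le_of_le_one_left (Nat.cast_nonneg X) hθ1.le
      have hm1 : θ * X ≤ m := Nat.le_ceil _
      have hm2 : (m : ℝ) < θ * X + 1 := Nat.ceil_lt_add_one (by positivity)
      set n := m - a with hn
      have hnr : (n : ℝ) ≤ θ * ((X : ℝ) - b) + 2 + e := by
        have hXb : (0 : ℝ) ≤ (X : ℝ) - b := by
          have : (b : ℝ) ≤ X := by exact_mod_cast hbX.le
          linarith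
        rcases Nat.lt_or_ge a m with ham | ham
        · rw [hn, Nat.cast_sub ham.le]
          linarith
        · rw [hn, Nat.sub_eq_zero_of_le ham, Nat.cast_zero]
          positivity
      have key : (X : ℝ) - (b + n) ≤ e := by
        rcases Nat.lt_or_ge (b + n) X with hy | hy
        · set β := (1 - h) * ((X : ℝ) - (b + n : ℕ)) * Real.log 2 + d with hβ
          have hma : (0 : ℝ) ≤ (X : ℝ) - (b + n : ℕ) := by
            have : ((b + n : ℕ) : ℝ) ≤ X := by exact_mod_cast hy.le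
            linarith
          have hβ0 : 0 ≤ β := by
            have : 0 ≤ (1 - h) * ((X : ℝ) - (b + n : ℕ)) * Real.log 2 :=
              mul_nonneg (mul_nonneg (by linarith) hma) hl2.le
            linarith
          have hup := up_row hp hq (q3_3 h0) hϖ' hG hϖ (V := Z) (m := X) (i := b + n) le_rfl hy.le
            (fun ω => (tp X m (U ω), S ω)) hβ0
            (fun G' hG' => H.nfz (b + n) X m hy.le le_rfl hmX hm1 G' hG') hKn
          simp only [tp_self] at hup
          have g3 := disp_b hrl hUr hZr hC1 (X := X) (a := a) (b := b) (g := g) (m := m) hmX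
            hbX.le ht fullr su1 (fun ham => su2 (lt_of_lt_of_le ham hmX)) sz1 (sz2 hbX) hS hup
          rw [h36] at g3
          have g4 : h * ((X : ℝ) - (b + n : ℕ)) * Real.log 2 ≤ Er X g Kn C ϖ' ϖ d := by
            unfold Er
            rw [hβ] at g3
            push_cast at g3 ⊢
            nlinarith
          have g5 : ((X : ℝ) - (b + n : ℕ)) * (h * Real.log 2) ≤ e * (h * Real.log 2) := by
            refine le_trans (le_of_eq ?_) (g4.trans he)
            ring
          have g6 := le_of_mul_le_mul_right g5 (by positivity)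
          push_cast at g6
          linarith
        · have : (X : ℝ) ≤ b + n := by exact_mod_cast hy
          linarith
      rw [le_div_iff₀ hθ']
      nlinarith
    · have h1 : (X : ℝ) - b ≤ 0 := by
        have : (X : ℝ) ≤ b := by exact_mod_cast hbX
        linarith
      exact h1.trans (by positivity)
  refine ⟨claimB, ?_⟩
  -- the size of `a`
  set k := min b X with hk
  have hA := claimA k ⌊θ * k⌋₊ (min_le_right _ _) (min_le_left _ _) (Nat.floor_le (by positivity))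
  have hA1 := (Nat.lt_floor_add_one (θ * (k : ℝ))).le
  have hkr : (X : ℝ) - k ≤ (2 * e + 2) / (1 - θ) := by
    rcases le_or_gt b X with h1 | h1
    · have : k = b := by rw [hk]; exact min_eq_left h1
      rw [this]
      exact claimB
    · have : k = X := by rw [hk]; exact min_eq_right h1.le
      rw [this, sub_self]
      positivity
  have hkX : (k : ℝ) ≤ X := by exact_mod_cast min_le_right b X
  have : θ * ((X : ℝ) - k) ≤ 1 * ((X : ℝ) - k) := by
    refine mul_le_mul_of_nonneg_right hθ1.le ?_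
    linarith
  nlinarith

/-- LP with all the numbers. -/
theorem lp_numF (H : LpOf p B ln Y S t U Z du dz au az Nb X C θ h ϖ d κ₀) (hC : 1 ≤ C)
    (hθ0 : 0 < θ) (hθ1 : θ < 1) (hh0 : 0 < h) (hh1 : h ≤ 1) (hϖ : 0 ≤ ϖ) (hd : 0 ≤ d) {g N Kn : ℕ}
    (hN : X ≤ N * g) (hKn : 0 < Kn) {ϖ' : ℝ} (hϖ' : 0 < ϖ') {e : ℝ}
    (he : Er X g Kn C ϖ' ϖ d ≤ e * (h * Real.log 2)) {n : ℕ}
    (hn : (2 * e + 2) / (1 - θ) + 1 + e ≤ n) (he0 : 0 ≤ e) :
    CH p dz B ≤ Real.log 2 + (Real.log (11 * C) + n * Real.log 2) +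
        ((N + 1) ^ 2 * ϖ') * (Real.log (5 * C) + X * Real.log 2) ∧
      CH p (fun ω => tp X ⌊θ * X⌋₊ (du ω)) B ≤
        Real.log 2 + (Real.log (11 * C) + n * Real.log 2) +
        ((N + 1) ^ 2 * ϖ') * (Real.log (5 * C) + X * Real.log 2) := by
  classical
  have hp := H.ok.law
  have h0 := hp.nonneg
  have hq := q3_law (B := B) (ln := ln) hp
  set q := q3 p B ln with hqd
  set P : ℕ → ℕ → Prop := fun i j => X ≤ j * g + n ∧ ⌊θ * X⌋₊ ≤ i * g + n with hP
  set I : (Ω × Ω) × Ω → ℕ := fun w => idx (4 * C) g N (sl X du w) with hI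
  set J : (Ω × Ω) × Ω → ℕ := fun w => idx (4 * C) g N (sl X dz w) with hJ
  have hbad := bad_le (q := q) N I J (fun _ => idx_le _ _ _ _) (fun _ => idx_le _ _ _ _) hϖ'.le P (by
    intro i j hij
    obtain ⟨h1, h2⟩ := cell_okF H hC hθ0 hθ1 hh0 hh1 hϖ hd hN hKn hϖ' i j hij he
    have hX : (0 : ℝ) ≤ X := Nat.cast_nonneg X
    constructor
    · have : (X : ℝ) ≤ ((j * g + n : ℕ) : ℝ) := by
        push_cast at h1 ⊢
        linarith
      exact_mod_cast this
    · have h3 := Nat.floor_le (by positivity : 0 ≤ θ * (X : ℝ))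
      have : ((⌊θ * X⌋₊ : ℕ) : ℝ) ≤ ((i * g + n : ℕ) : ℝ) := by
        push_cast at h2 ⊢
        linarith
      exact_mod_cast this)
  have hpow : (1 : ℝ) ≤ 2 ^ n := one_le_pow₀ (by norm_num)
  have hpowX : (1 : ℝ) ≤ 2 ^ X := one_le_pow₀ (by norm_num)
  have hlog1 : ∀ M : ℝ, 0 ≤ M → M ≤ 4 * C * 2 ^ n + 1 →
      Real.log (2 * M + 1) ≤ Real.log (11 * C) + n * Real.log 2 := by
    intro M hM0 hM
    rw [← Real.log_pow, ← Real.log_mul (by positivity) (by positivity)]
    refine Real.log_le_log (by linarith) ?_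
    nlinarith
  have hlog2 : ∀ L : ℝ, 0 ≤ L → L ≤ C * 2 ^ X + 1 →
      Real.log (2 * L + 1) ≤ Real.log (5 * C) + X * Real.log 2 := by
    intro L hL0 hL
    rw [← Real.log_pow, ← Real.log_mul (by positivity) (by positivity)]
    refine Real.log_le_log (by linarith) ?_
    nlinarith
  have hϖN : 0 ≤ ((N : ℝ) + 1) ^ 2 * ϖ' := by positivity
  -- transport to the pair
  have hpair : ∀ (V : Ω → ℤ) (M : ℝ), (∀ w : (Ω × Ω) × Ω, 0 < q w → P (I w) (J w) →
      |(V w.1.1 : ℝ) - V w.1.2| ≤ M) →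
      Ex (dbl p B) (fun w => if |(V w.1 : ℝ) - V w.2| ≤ M then 0 else 1) ≤ (N + 1) ^ 2 * ϖ' := by
    intro V M hVM
    have e1 := (q3_12 (B := B) (ln := ln) h0).Ex
      (fun w : Ω × Ω => if |(V w.1 : ℝ) - V w.2| ≤ M then (0 : ℝ) else 1)
    rw [← e1]
    refine le_trans (Ex_mono hq.nonneg fun w hw => ?_) hbad
    by_cases h1 : P (I w) (J w)
    · rw [if_pos (hVM w hw h1)]
      split_ifs <;> norm_num
    · rw [if_neg h1]
      split_ifs <;> norm_num
  -- the differences of the velocities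
  have hdif : ∀ (dv : Ω → ℤ) (a : ℕ) (w : (Ω × Ω) × Ω), |sl X dv w| * 2 ^ a ≤ 4 * C →
      |(dv w.1.1 : ℝ) - dv w.1.2| ≤ 4 * C * 2 ^ (X - a) := by
    intro dv a w h1
    have h2 := pow_sub_le (X := X) (by linarith : (0 : ℝ) ≤ 4 * C) h1
    have hPX : (0 : ℝ) < 2 ^ X := by positivity
    have h3 : |sl X dv w| * 2 ^ X = |(dv w.1.1 : ℝ) - dv w.1.2| := by
      unfold sl
      rw [abs_neg, abs_div, abs_of_pos hPX, div_mul_cancel₀ _ hPX.ne', abs_sub_comm]
    rwa [h3] at h2
  have hz : ∀ w : (Ω × Ω) × Ω, 0 < q w → P (I w) (J w) →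
      |(dz w.1.1 : ℝ) - dz w.1.2| ≤ 4 * C * 2 ^ n := by
    intro w hw hPw
    obtain ⟨x1, x2, -⟩ := q3_pos h0 hw
    have h1 : |sl X dz w| ≤ 4 * C := (H.z.sl_le x1 x2).trans (by linarith)
    have h2 : |sl X dz w| * 2 ^ (J w * g) ≤ 4 * C := idx_spec h1
    refine (hdif dz (J w * g) w h2).trans ?_
    refine mul_le_mul_of_nonneg_left (pow_le_pow_right₀ (by norm_num) ?_) (by positivity)
    have h3 : X ≤ J w * g + n := hPw.1
    omega
  have hu : ∀ w : (Ω × Ω) × Ω, 0 < q w → P (I w) (J w) →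
      |(tp X ⌊θ * X⌋₊ (du w.1.1) : ℝ) - tp X ⌊θ * X⌋₊ (du w.1.2)| ≤ 4 * C * 2 ^ n + 1 := by
    intro w hw hPw
    obtain ⟨x1, x2, -⟩ := q3_pos h0 hw
    have h1 : |sl X du w| ≤ 4 * C := (H.u.sl_le x1 x2).trans (by linarith)
    have h2 : |sl X du w| * 2 ^ (I w * g) ≤ 4 * C := idx_spec h1
    have e1 := hdif du (I w * g) w h2
    rw [← Int.cast_sub]
    refine tp_near X ⌊θ * X⌋₊ (du w.1.1) (du w.1.2) (L := 4 * C * 2 ^ n) ?_
    refine e1.trans ?_
    rw [mul_assoc (4 * C) (2 ^ n), ← pow_add]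
    refine mul_le_mul_of_nonneg_left (pow_le_pow_right₀ (by norm_num) ?_) (by positivity)
    have h3 : ⌊θ * X⌋₊ ≤ I w * g + n := hPw.2
    omega
  constructor
  · have h1 := near_int hp B dz (M := 4 * C * 2 ^ n) (L := C * 2 ^ X) (by positivity)
      (by positivity) H.z.siz (hpair dz (4 * C * 2 ^ n) hz)
    refine h1.trans ?_
    have h2 := hlog1 (4 * C * 2 ^ n) (by positivity) (by linarith)
    have h3 := mul_le_mul_of_nonneg_left (hlog2 (C * 2 ^ X) (by positivity) (by linarith)) hϖN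
    linarith only [h2, h3]
  · have h1 := near_int hp B (fun ω => tp X ⌊θ * X⌋₊ (du ω)) (M := 4 * C * 2 ^ n + 1)
      (L := C * 2 ^ X + 1) (by positivity) (by positivity) (by
        intro ω hω
        have e1 := H.u.siz ω hω
        have e2 := tp_near X ⌊θ * X⌋₊ (du ω) 0 (L := C * 2 ^ X) (by
          push_cast
          rw [sub_zero]
          refine e1.trans ?_
          exact le_mul_of_one_le_right (by positivity) (one_le_pow₀ (by norm_num)))
        have e3 : tp X ⌊θ * X⌋₊ 0 = 0 := by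
          unfold tp
          simp
        rw [e3] at e2
        push_cast at e2
        rw [sub_zero] at e2
        exact e2) (hpair (fun ω => tp X ⌊θ * X⌋₊ (du ω)) (4 * C * 2 ^ n + 1) hu)
    refine h1.trans ?_
    have h2 := hlog1 (4 * C * 2 ^ n + 1) (by positivity) le_rfl
    have h3 := mul_le_mul_of_nonneg_left (hlog2 (C * 2 ^ X + 1) (by positivity) le_rfl) hϖN
    linarith only [h2, h3]

/-- **Lemma LP.** The velocity of the fast coordinate to `X` digits and that of the slow one to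
`θ X` digits are few bits given the ball. -/
theorem lp_pairF (C θ h ε : ℝ) (hC : 1 ≤ C) (hθ0 : 0 < θ) (hθ1 : θ < 1) (hh0 : 0 < h)
    (hh1 : h ≤ 1) (hε : 0 < ε) : ∃ κ ϖ : ℝ, 0 < κ ∧ 0 < ϖ ∧ ∃ X₀ : ℕ,
    ∀ {Ω β Λ υ σ : Type} [Fintype Ω] {p : Ω → ℝ} {B : Ω → β} {ln : Ω → Λ} {Y : Ω → υ} {S : Ω → σ}
    {t U Z du dz : Ω → ℤ} {au az : Ω → ℝ} {Nb : υ → Finset υ} {X : ℕ} {d κ₀ : ℝ},
    LpOf p B ln Y S t U Z du dz au az Nb X C θ h ϖ d κ₀ → X₀ ≤ X → 0 ≤ d → d ≤ κ * X →
    CH p dz B ≤ ε * X ∧ CH p (fun ω => tp X ⌊θ * X⌋₊ (du ω)) B ≤ ε * X := by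
  have hl2 : 0 < Real.log 2 := Real.log_pos (by norm_num)
  have hl2' : Real.log 2 ≤ 1 := by
    have := Real.log_le_sub_one_of_pos (by norm_num : (0 : ℝ) < 2)
    linarith
  have hθ' : 0 < 1 - θ := by linarith
  set Q := 3 / (h * (1 - θ)) with hQ
  have hQ0 : 0 < Q := by positivity
  set η := ε / (16 * Q) with hη
  have hη0 : 0 < η := by positivity
  set N := ⌈2 / η⌉₊ with hN
  have hNη : 2 / η ≤ N := Nat.le_ceil _
  set ϖ' := ε / (8 * ((N : ℝ) + 1) ^ 2) with hϖ'
  have hϖ'0 : 0 < ϖ' := by positivity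
  set Kn := ⌈16 * Q / (ε * ϖ')⌉₊ + 1 with hKn
  have hKn0 : 0 < Kn := Nat.succ_pos _
  have hKnr : 16 * Q / (ε * ϖ') ≤ Kn := by
    have := Nat.le_ceil (16 * Q / (ε * ϖ'))
    rw [hKn]
    push_cast
    linarith
  set ϖ := ε * ϖ' / (16 * Q) with hϖ
  have hϖ0 : 0 < ϖ := by positivity
  set κ := ε / (8 * Q * (1 + 4 / ϖ')) with hκ
  have hκ0 : 0 < κ := by positivity
  set c0 := Q * ((1 / ϖ' / Kn + 1 / ϖ' * ϖ) * Real.log 5 + Real.log (Kn + 1) +
    4 * Real.log (36 * C)) + 5 * Q + Real.log 2 + Real.log (11 * C) +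
    ((N : ℝ) + 1) ^ 2 * ϖ' * Real.log (5 * C) with hc0
  refine ⟨κ, ϖ, hκ0, hϖ0, max ⌈2 / η⌉₊ ⌈8 * c0 / ε⌉₊, ?_⟩
  intro Ω β Λ υ σ _ p B ln Y S t U Z du dz au az Nb X d κ₀ H hX hd hdκ
  have hX1 : 2 / η ≤ X := by
    have h1 : ⌈2 / η⌉₊ ≤ X := (le_max_left _ _).trans hX
    exact (Nat.le_ceil _).trans (by exact_mod_cast h1)
  have hX2 : 8 * c0 / ε ≤ X := by
    have h1 : ⌈8 * c0 / ε⌉₊ ≤ X := (le_max_right _ _).trans hX
    exact (Nat.le_ceil _).trans (by exact_mod_cast h1)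
  have hX0 : (0 : ℝ) ≤ X := Nat.cast_nonneg X
  have hηX : 2 ≤ η * X := by
    rw [div_le_iff₀ hη0] at hX1
    linarith
  set g := ⌊η * X⌋₊ with hg
  have hg1 : (g : ℝ) ≤ η * X := Nat.floor_le (by positivity)
  have hg2 : η * X / 2 ≤ g := by
    have := Nat.lt_floor_add_one (η * (X : ℝ))
    linarith
  have hNg : X ≤ N * g := by
    have h1 : (X : ℝ) ≤ N * g := by
      have h2 : 2 / η * (η * X / 2) ≤ N * g :=
        mul_le_mul hNη hg2 (by positivity) (Nat.cast_nonneg N)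
      have h3 : 2 / η * (η * X / 2) = X := by field_simp
      linarith
    exact_mod_cast h1
  set E := Er X g Kn C ϖ' ϖ d with hE
  have hlK : 0 ≤ Real.log ((Kn : ℝ) + 1) := Real.log_nonneg (by
    have : (0 : ℝ) ≤ Kn := Nat.cast_nonneg _
    linarith)
  have hl5 : 0 ≤ Real.log 5 := Real.log_nonneg (by norm_num)
  have hl36 : 0 ≤ Real.log (36 * C) := Real.log_nonneg (by linarith)
  have hl5C : 0 ≤ Real.log (5 * C) := Real.log_nonneg (by linarith)
  have hE0 : 0 ≤ E := by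
    rw [hE]
    unfold Er
    positivity
  set e := E / (h * Real.log 2) with he
  have he0 : 0 ≤ e := by positivity
  have heE : E ≤ e * (h * Real.log 2) := by
    rw [he, div_mul_cancel₀ _ (by positivity)]
  set n := ⌈(2 * e + 2) / (1 - θ) + 1 + e⌉₊ with hn
  have hn1 : (2 * e + 2) / (1 - θ) + 1 + e ≤ n := Nat.le_ceil _
  have hn2 : (n : ℝ) ≤ (2 * e + 2) / (1 - θ) + 2 + e := by
    have := (Nat.ceil_lt_add_one (by positivity : 0 ≤ (2 * e + 2) / (1 - θ) + 1 + e)).le
    linarith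
  have key := lp_numF H hC hθ0 hθ1 hh0 hh1 hϖ0.le hd hNg hKn0 hϖ'0 heE hn1 he0
  -- the numbers
  have hnl : n * Real.log 2 ≤ Q * E + 5 * Q := by
    have h1 : (n : ℝ) ≤ (3 * e + 4) / (1 - θ) := by
      refine hn2.trans ?_
      have h2 : 2 + e ≤ (2 + e) / (1 - θ) := by
        rw [le_div_iff₀ hθ']
        nlinarith
      have h3 : (2 * e + 2) / (1 - θ) + (2 + e) / (1 - θ) = (3 * e + 4) / (1 - θ) := by
        rw [← add_div]
        congr 1
        ring
      linarith
    have h2 := mul_le_mul_of_nonneg_right h1 hl2.le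
    refine h2.trans ?_
    have h3 : (3 * e + 4) / (1 - θ) * Real.log 2 =
        3 * (e * (h * Real.log 2)) / (h * (1 - θ)) + 4 * Real.log 2 / (1 - θ) := by
      field_simp
    have h4 : e * (h * Real.log 2) = E := by rw [he, div_mul_cancel₀ _ (by positivity)]
    rw [h3, h4]
    have h5 : 3 * E / (h * (1 - θ)) = Q * E := by rw [hQ]; ring
    have h6 : 4 * Real.log 2 / (1 - θ) ≤ 5 * Q := by
      rw [hQ, div_le_iff₀ hθ']
      have h7 : 5 * (3 / (h * (1 - θ))) * (1 - θ) = 15 / h := by field_simp; norm_num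
      rw [h7]
      have h8 : (15 : ℝ) ≤ 15 / h := by
        rw [le_div_iff₀ hh0]
        linarith
      linarith
    linarith
  have hQE : Q * E ≤ ε / 8 * X + (ε / 8 * X + ε / 8 * X) + Q * ((1 / ϖ' / Kn + 1 / ϖ' * ϖ) *
      Real.log 5 + Real.log (Kn + 1) + 4 * Real.log (36 * C)) := by
    rw [hE]
    unfold Er
    have h1 : Q * (d + 4 * d / ϖ') ≤ ε / 8 * X := by
      have h2 : Q * (d + 4 * d / ϖ') = Q * (1 + 4 / ϖ') * d := by ring
      rw [h2]
      have h3 : Q * (1 + 4 / ϖ') * d ≤ Q * (1 + 4 / ϖ') * (κ * X) :=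
        mul_le_mul_of_nonneg_left hdκ (by positivity)
      have h4 : Q * (1 + 4 / ϖ') * (κ * X) = ε / 8 * X := by
        rw [hκ]
        field_simp
      linarith
    have h5 : Q * ((1 / ϖ' / Kn + 1 / ϖ' * ϖ) * (X * Real.log 2)) ≤ ε / 8 * X := by
      have h6 : Q * (1 / ϖ' / Kn) ≤ ε / 16 := by
        have h7 : 16 * Q ≤ Kn * (ε * ϖ') := by
          rwa [div_le_iff₀ (by positivity)] at hKnr
        have h8 : Q * (1 / ϖ' / Kn) = Q / (ϖ' * Kn) := by
          field_simp
        rw [h8, div_le_iff₀ (by positivity)]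
        linarith
      have h9 : Q * (1 / ϖ' * ϖ) = ε / 16 := by
        rw [hϖ]
        field_simp
      have h10 : Q * (1 / ϖ' / Kn + 1 / ϖ' * ϖ) ≤ ε / 8 := by
        rw [mul_add, h9]
        linarith
      have h11 : Q * ((1 / ϖ' / Kn + 1 / ϖ' * ϖ) * (X * Real.log 2)) =
          Q * (1 / ϖ' / Kn + 1 / ϖ' * ϖ) * (X * Real.log 2) := by ring
      rw [h11]
      refine (mul_le_mul_of_nonneg_right h10 (by positivity)).trans ?_
      refine mul_le_mul_of_nonneg_left ?_ (by positivity)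
      exact mul_le_of_le_one_right hX0 hl2'
    have h12 : Q * (2 * g * Real.log 2) ≤ ε / 8 * X := by
      have h13 : Q * (2 * g * Real.log 2) ≤ Q * (2 * (η * X) * 1) := by
        refine mul_le_mul_of_nonneg_left ?_ hQ0.le
        exact mul_le_mul (by linarith) hl2' hl2.le (by positivity)
      have h14 : Q * (2 * (η * X) * 1) = ε / 8 * X := by
        rw [hη]
        field_simp
        ring
      linarith
    linarith
  have hN2 : ((N : ℝ) + 1) ^ 2 * ϖ' = ε / 8 := by
    rw [hϖ']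
    field_simp
  have hc : c0 ≤ ε / 8 * X := by
    rw [div_le_iff₀ hε] at hX2
    linarith
  have htot : Real.log 2 + (Real.log (11 * C) + n * Real.log 2) +
      ((N + 1) ^ 2 * ϖ') * (Real.log (5 * C) + X * Real.log 2) ≤ ε * X := by
    have h1 : ((N : ℝ) + 1) ^ 2 * ϖ' * (X * Real.log 2) ≤ ε / 8 * X := by
      rw [hN2]
      refine mul_le_mul_of_nonneg_left ?_ (by positivity)
      exact mul_le_of_le_one_right hX0 hl2'
    have h2 : ((N : ℝ) + 1) ^ 2 * ϖ' * (Real.log (5 * C) + X * Real.log 2) =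
        ((N : ℝ) + 1) ^ 2 * ϖ' * Real.log (5 * C) + ((N : ℝ) + 1) ^ 2 * ϖ' * (X * Real.log 2) := by
      ring
    rw [h2]
    have h3 : 0 ≤ ε * X := by positivity
    rw [hc0] at hc
    linarith
  exact ⟨key.1.trans htot, key.2.trans htot⟩

end

end Pool.LPX
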