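import Pool.Agent.H16.LP.Cpl
import Pool.Agent.H40.KAL.FRMb

/-!
# The sizes of the differences of the velocities
-/

set_option autoImplicit false

namespace Pool.LPX

open Finset Real
open Pool.Agent.H49.Ent Pool.Agent.H32.Dense Pool.STK Pool.POT Pool.TQ
open Pool.K2S (Pe)

variable {Ω β Λ υ σ τ : Type}

open Classical in
/-- The index of the size of a number. -/
noncomputable def idx (C : ℝ) (g N : ℕ) (x : ℝ) : ℕ :=
  Nat.findGreatest (fun i => |x| * 2 ^ (i * g) ≤ C) N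

theorem idx_le (C : ℝ) (g N : ℕ) (x : ℝ) : idx C g N x ≤ N := Nat.findGreatest_le _

theorem idx_spec {C : ℝ} {g N : ℕ} {x : ℝ} (hx : |x| ≤ C) :
    |x| * 2 ^ (idx C g N x * g) ≤ C := by
  classical
  have h := Nat.findGreatest_spec (P := fun i => |x| * 2 ^ (i * g) ≤ C) (m := 0) (n := N)
    (Nat.zero_le _) (by simpa using hx)
  exact h

theorem idx_low {C : ℝ} (hC : 1 ≤ C) {g N : ℕ} {x : ℝ} (h : idx C g N x < N) :
    1 ≤ |x| * 2 ^ (idx C g N x * g + g) := by
  classical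
  have h1 := Nat.findGreatest_is_greatest (P := fun i => |x| * 2 ^ (i * g) ≤ C) (n := N)
    (k := idx C g N x + 1) (Nat.lt_succ_self _) h
  simp only [not_le] at h1
  have h2 : (idx C g N x + 1) * g = idx C g N x * g + g := by ring
  rw [h2] at h1
  linarith

variable [Fintype Ω] {q : Ω → ℝ}

omit [Fintype Ω] in
theorem Dp.mono {W : Ω → τ} {t V : Ω → ℤ} {A k : Ω → ℝ} {C : ℝ} (h : Dp q W t V A k C)
    {r : Ω → ℝ} (hr : ∀ ω, 0 < r ω → 0 < q ω) : Dp r W t V A k C :=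
  ⟨fun ω ω' a b e => h.dA ω ω' (hr ω a) (hr ω' b) e,
    fun ω ω' a b e => h.dk ω ω' (hr ω a) (hr ω' b) e, fun ω a => h.rel ω (hr ω a)⟩

/-- A time with values below `2 ^ X`. -/
theorem time_le (hq : IsLaw q) (t : Ω → ℤ) (W : Ω → τ) {X : ℕ}
    (ht : ∀ ω, 0 < q ω → 0 ≤ t ω ∧ t ω < 2 ^ X) : CH q t W ≤ X * Real.log 2 := by
  have g := CH_le_card hq.nonneg hq.sum_one t W (fun _ => Finset.Ico (0 : ℤ) (2 ^ X)) (by
      intro w hw
      rw [Finset.mem_Ico]
      exact ht _ hw)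
  rw [Ex_const hq.sum_one] at g
  refine g.trans (le_of_eq ?_)
  have : (Finset.Ico (0 : ℤ) (2 ^ X)).card = 2 ^ X := by
    rw [Int.card_Ico, sub_zero]
    have : ((2 : ℤ) ^ X) = ((2 ^ X : ℕ) : ℤ) := by push_cast; rfl
    rw [this, Int.toNat_natCast]
  rw [this]
  push_cast
  rw [Real.log_pow]

/-- A full time is full on every large event of the condition. -/
theorem time_ev (hq : IsLaw q) {G : Ω → Prop} (t : Ω → ℤ) (W : Ω → τ) (hG : Det q W G) {X : ℕ}
    (ht : ∀ ω, 0 < q ω → 0 ≤ t ω ∧ t ω < 2 ^ X) {D : ℝ} (full : X * Real.log 2 - D ≤ CH q t W)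
    (h0 : 0 < Pe q G) : X * Real.log 2 - D / Pe q G ≤ CH (cond q G True) t W := by
  have h1 := CH_ev hq.nonneg t W hG
  have h2 := law_ev hq G
  have h3 : Pe q G = law q G True := rfl
  have h4 : law q G False * CH (cond q G False) t W ≤ law q G False * (X * Real.log 2) := by
    rcases (law_nonneg hq.nonneg G False).eq_or_lt with e | e
    · rw [← e, zero_mul, zero_mul]
    · have hl : IsLaw (cond q G False) := ⟨cond_nonneg hq.nonneg _ _, sum_cond _ _ e.ne'⟩
      refine mul_le_mul_of_nonneg_left (time_le hl t W fun ω hω => ?_) e.le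
      exact ht ω ((cond_pos_iff hq.nonneg G False ω).1 hω).1
  rw [h3] at h0 ⊢
  have h5 : law q G False = 1 - law q G True := by linarith
  have h6 : law q G True * (X * Real.log 2 - D / law q G True) ≤
      law q G True * CH (cond q G True) t W := by
    have e1 : law q G True * (X * Real.log 2 - D / law q G True) =
        law q G True * (X * Real.log 2) - D := by
      field_simp
    rw [e1]
    rw [h5] at h4 h1
    linarith
  exact le_of_mul_le_mul_left h6 h0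

/-- The upper bounds of the rows. -/
def NFz (p : Ω → ℝ) (U Z : Ω → ℤ) (S : Ω → σ) (X : ℕ) (θ h ϖ d : ℝ) : Prop :=
  ∀ i k m : ℕ, i ≤ k → k ≤ X → m ≤ X → θ * k ≤ m → ∀ G : Ω → Prop, ϖ ≤ Pe p G →
    CH (cond p G True) (fun ω => tp X k (Z ω)) (fun ω => (tp X i (Z ω), (tp X m (U ω), S ω))) ≤
      (1 - h) * ((k : ℝ) - i) * Real.log 2 + d

def NFu (p : Ω → ℝ) (U Z : Ω → ℤ) (S : Ω → σ) (X : ℕ) (θ h ϖ d : ℝ) : Prop :=
  ∀ i k m : ℕ, i ≤ m → k ≤ X → (m : ℝ) ≤ θ * k → ∀ G : Ω → Prop, ϖ ≤ Pe p G →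
    CH (cond p G True) (fun ω => tp X m (U ω)) (fun ω => (tp X i (U ω), (tp X k (Z ω), S ω))) ≤
      (1 - h) * ((m : ℝ) - i) * Real.log 2 + d

/-- An upper bound for all large events passes to a law of bounded density, upstairs. -/
theorem up_row {Ω' : Type} [Fintype Ω'] {p : Ω' → ℝ} {f : Ω → Ω'} (hp : IsLaw p)
    (hq : IsLaw q) (him : Im q p f) {G : Ω → Prop} {ϖ' ϖ : ℝ} (hϖ' : 0 < ϖ')
    (hG : ϖ' ≤ Pe q G) (hϖ : 0 ≤ ϖ) {X m i : ℕ} (V : Ω' → ℤ) (hmX : m ≤ X) (him' : i ≤ m)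
    {κ : Type} (K : Ω' → κ) {b : ℝ} (hb : 0 ≤ b)
    (hrow : ∀ G : Ω' → Prop, ϖ ≤ Pe p G →
      CH (cond p G True) (fun ω => tp X m (V ω)) (fun ω => (tp X i (V ω), K ω)) ≤ b)
    {Kn : ℕ} (hKn : 0 < Kn) :
    CH (cond q G True) (fun w => tp X m (V (f w))) (fun w => (tp X i (V (f w)), K (f w))) ≤
      b + (1 / ϖ' / Kn + 1 / ϖ' * ϖ) * (X * Real.log 2 + Real.log 5) + Real.log (Kn + 1) := by
  have h0 : 0 < Pe q G := lt_of_lt_of_le hϖ' hG
  have hl2 : 0 ≤ Real.log 2 := Real.log_nonneg (by norm_num)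
  have hl5 : 0 ≤ Real.log 5 := Real.log_nonneg (by norm_num)
  refine up_up him hp (cond_law hq.nonneg h0) (F := 1 / ϖ') (by positivity) ?_ hϖ hb
    (by positivity) (fun ω => tp X m (V ω)) (fun ω => (tp X i (V ω), K ω))
    (fun B hB _ => hrow B hB) ?_ hKn
  · intro w
    refine (cond_le hq.nonneg w).trans ?_
    refine mul_le_mul_of_nonneg_right ?_ (hq.nonneg w)
    exact one_div_le_one_div_of_le hϖ' hG
  · intro q' hq' _
    have h1 := CH_few_tp hq' V (fun ω => (tp X i (V ω), K ω)) (X := X) (m := m)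
      (L := 2 ^ (m - i)) (by
        intro ω ω' _ _ e
        have := of_tp_eq X i (Prod.ext_iff.mp e).1
        rw [← pow_add]
        have e2 : m - i + (X - m) = X - i := by omega
        rw [e2]
        exact this)
    refine h1.trans ?_
    have h2 : (1 : ℝ) ≤ 2 ^ (m - i) := one_le_pow₀ (by norm_num)
    have h3 : Real.log (2 * 2 ^ (m - i) + 3) ≤ Real.log (2 ^ (m - i) * 5) := by
      refine Real.log_le_log (by positivity) ?_
      linarith
    have h4 : Real.log ((2 : ℝ) ^ (m - i) * 5) = (m - i : ℕ) * Real.log 2 + Real.log 5 := by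
      rw [Real.log_mul (by positivity) (by norm_num), Real.log_pow]
    have h5 : ((m - i : ℕ) : ℝ) ≤ X := by
      exact_mod_cast (by omega : m - i ≤ X)
    have h6 := mul_le_mul_of_nonneg_right h5 hl2
    linarith

end Pool.LPX
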