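import Pool.Agent.H16.LP.Disp
import Pool.Agent.H32.Dense.Conf

/-!
# The coupling: a line, a copy of the line given the ball, and one more time of the copy
-/

set_option autoImplicit false

namespace Pool.LPX

open Finset Real
open Pool.Agent.H49.Ent Pool.Agent.H32.Dense Pool.STK Pool.POT
open Pool.K2S (Pe)

variable {Ω β Λ υ σ : Type}

/-- One coordinate: its digits `V` at the own time, the own path `a + (t / 2 ^ X) d`. -/
structure Crd (p : Ω → ℝ) (B : Ω → β) (ln : Ω → Λ) (t V dv : Ω → ℤ) (av : Ω → ℝ) (X : ℕ)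
    (C : ℝ) : Prop where
  da : Det p ln av
  dd : Det p ln dv
  rel : ∀ ω, 0 < p ω → |(V ω : ℝ) - (av ω + t ω * (dv ω / 2 ^ X))| ≤ C
  ball : ∀ ω ω', 0 < p ω → 0 < p ω' → B ω = B ω' → |(V ω : ℝ) - V ω'| ≤ C
  siz : ∀ ω, 0 < p ω → |(dv ω : ℝ)| ≤ C * 2 ^ X

/-- The common part of the hypotheses. -/
structure Lp (p : Ω → ℝ) [Fintype Ω] (B : Ω → β) (ln : Ω → Λ) (Y : Ω → υ) (S : Ω → σ)
    (t : Ω → ℤ) (Nb : υ → Finset υ) (X : ℕ) (d κ₀ : ℝ) : Prop where
  law : IsLaw p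
  t0 : ∀ ω, 0 < p ω → 0 ≤ t ω ∧ t ω < 2 ^ X
  tB : Det p B t
  lY : Det p ln Y
  SY : Det p (fun ω => (Y ω, t ω)) S
  tf : X * Real.log 2 - d ≤ CH p t ln
  nb : ∀ ω ω', 0 < p ω → 0 < p ω' → B ω = B ω' → Y ω' ∈ Nb (Y ω)
  card : ∀ y, ((Nb y).card : ℝ) ≤ Real.exp κ₀
  full : κ₀ - d ≤ CH p Y B

variable [Fintype Ω]

/-- The law of (line, copy, time). -/
noncomputable def q3 (p : Ω → ℝ) (B : Ω → β) (ln : Ω → Λ) : (Ω × Ω) × Ω → ℝ :=
  glue (dbl p B) p (fun w => ln w.2) ln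

section

variable {p : Ω → ℝ} {B : Ω → β} {ln : Ω → Λ}

theorem hZ3 (hp : ∀ ω, 0 ≤ p ω) (z : Λ) :
    law (dbl p B) (fun w => ln w.2) z = law p ln z := (dbl_snd hp).law ln z

theorem q3_nonneg (hp : ∀ ω, 0 ≤ p ω) (w : (Ω × Ω) × Ω) : 0 ≤ q3 p B ln w :=
  glue_nonneg (dbl_nonneg hp) hp w

theorem q3_12 (hp : ∀ ω, 0 ≤ p ω) : Im (q3 p B ln) (dbl p B) Prod.fst :=
  im_fst (dbl_nonneg hp) (hZ3 hp)

theorem q3_3 (hp : ∀ ω, 0 ≤ p ω) : Im (q3 p B ln) p Prod.snd := im_snd hp (hZ3 hp)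

theorem q3_1 (hp : ∀ ω, 0 ≤ p ω) : Im (q3 p B ln) p (fun w => w.1.1) :=
  (im_fst hp fun _ => rfl : Im (dbl p B) p Prod.fst).comp (q3_12 hp)

theorem q3_2 (hp : ∀ ω, 0 ≤ p ω) : Im (q3 p B ln) p (fun w => w.1.2) :=
  (im_snd hp fun _ => rfl : Im (dbl p B) p Prod.snd).comp (q3_12 hp)

theorem q3_law (hp : IsLaw p) : IsLaw (q3 p B ln) :=
  (q3_3 hp.nonneg).isLaw (q3_nonneg hp.nonneg) hp

theorem q3_pos (hp : ∀ ω, 0 ≤ p ω) {w : (Ω × Ω) × Ω} (h : 0 < q3 p B ln w) :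
    0 < p w.1.1 ∧ 0 < p w.1.2 ∧ 0 < p w.2 ∧ B w.1.1 = B w.1.2 ∧ ln w.1.2 = ln w.2 := by
  obtain ⟨h1, h2, h3⟩ := (glue_pos_iff (dbl_nonneg hp) hp w).1 h
  obtain ⟨h4, h5, h6⟩ := (glue_pos_iff hp hp w.1).1 h1
  exact ⟨h4, h5, h2, h6, h3⟩

end

/-- The condition: the line, the time of the third sample, the path of the copy, the difference of
the velocities. -/
def Wq {δ : Type} (ln : Ω → Λ) (t : Ω → ℤ) (Y : Ω → υ) (k : Ω → Ω → δ) (w : (Ω × Ω) × Ω) :
    Λ × (ℤ × (υ × δ)) := (ln w.1.1, (t w.2, (Y w.1.2, k w.1.1 w.1.2)))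

/-- **The time is full** given the line, the time of the third sample, the path of the copy and the
difference of the velocities. -/
theorem time_full {p : Ω → ℝ} {B : Ω → β} {ln : Ω → Λ} {Y : Ω → υ} {S : Ω → σ} {t : Ω → ℤ}
    {Nb : υ → Finset υ} {X : ℕ} {d κ₀ : ℝ} (h : Lp p B ln Y S t Nb X d κ₀) {δ ε : Type}
    (v : Ω → ε) (hv : Det p ln v) (dead : CH p v Y ≤ d) (k : Ω → Ω → δ) (f : ε → ε → δ)
    (hk : ∀ ω ω', k ω ω' = f (v ω) (v ω')) :
    X * Real.log 2 - 4 * d ≤ CH (q3 p B ln) (fun w => t w.1.1) (Wq ln t Y k) := by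
  classical
  have hp := h.law
  have h0 := hp.nonneg
  have hq := q3_law (B := B) (ln := ln) hp
  have hn := hq.nonneg
  set q := q3 p B ln with hqd
  -- the time given the line
  have e1 : CH q (fun w => t w.1.1) (fun w => ln w.1.1) = CH p t ln := (q3_1 h0).CH t ln
  -- the path of the copy
  have e2 : CH q (fun w => Y w.1.2) (fun w => ln w.1.1) ≤ κ₀ := by
    have g1 : CH q (fun w => Y w.1.2) (fun w => ln w.1.1) ≤
        CH q (fun w => Y w.1.2) (fun w => Y w.1.1) :=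
      CH_mono_cond hn fun w w' a b e => h.lY _ _ (q3_pos h0 a).1 (q3_pos h0 b).1 e
    refine g1.trans ?_
    have g2 := CH_le_card hn hq.sum_one (fun w => Y w.1.2) (fun w => Y w.1.1) Nb (by
      intro w hw
      obtain ⟨a1, a2, -, a4, -⟩ := q3_pos h0 hw
      exact h.nb _ _ a1 a2 a4)
    refine g2.trans ?_
    have g3 : ∀ w, 0 < q w → Real.log ((Nb (Y w.1.1)).card : ℝ) ≤ κ₀ := by
      intro w hw
      obtain ⟨a1, a2, -, a4, -⟩ := q3_pos h0 hw
      have : 0 < (Nb (Y w.1.1)).card := Finset.card_pos.2 ⟨_, h.nb _ _ a1 a2 a4⟩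
      have hc : (0 : ℝ) < (Nb (Y w.1.1)).card := by exact_mod_cast this
      rw [Real.log_le_iff_le_exp hc]
      exact h.card _
    have g4 := Ex_mono hn g3
    rwa [Ex_const hq.sum_one] at g4
  have e3 : κ₀ - d ≤ CH q (fun w => Y w.1.2) (fun w => (t w.1.1, ln w.1.1)) := by
    have g1 : CH q (fun w => Y w.1.2) (fun w => (B w.1.2, (t w.1.1, ln w.1.1))) ≤
        CH q (fun w => Y w.1.2) (fun w => (t w.1.1, ln w.1.1)) :=
      CH_mono_cond hn fun _ _ _ _ e => (Prod.ext_iff.mp e).2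
    have g2 : CH q (fun w => Y w.1.2) (fun w => (B w.1.2, (t w.1.1, ln w.1.1))) = CH p Y B := by
      have g3 := (q3_12 (B := B) (ln := ln) h0).CH (fun w : Ω × Ω => Y w.2)
        (fun w : Ω × Ω => (B w.2, (t w.1, ln w.1)))
      have g4 := CH_dbl_2 (b := B) h0 Y (fun ω => (t ω, ln ω))
      exact g3.trans g4
    linarith [h.full]
  -- the velocity of the copy
  have e4 : CH q (fun w => k w.1.1 w.1.2) (fun w => (Y w.1.2, ln w.1.1)) ≤ d := by
    have g1 : CH q (fun w => k w.1.1 w.1.2) (fun w => (Y w.1.2, ln w.1.1)) ≤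
        CH q (fun w => v w.1.2) (fun w => (Y w.1.2, ln w.1.1)) := by
      refine CH_mono_left hn ?_
      intro w w' a b e
      simp only [Prod.mk.injEq] at e
      have := hv _ _ (q3_pos h0 a).1 (q3_pos h0 b).1 e.2.2
      simp only [hk, this, e.1]
    have g2 : CH q (fun w => v w.1.2) (fun w => (Y w.1.2, ln w.1.1)) ≤
        CH q (fun w => v w.1.2) (fun w => Y w.1.2) :=
      CH_mono_cond hn fun _ _ _ _ e => (Prod.ext_iff.mp e).1
    have g3 : CH q (fun w => v w.1.2) (fun w => Y w.1.2) = CH p v Y := (q3_2 h0).CH v Y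
    linarith
  -- the time given the line, the path of the copy, the velocity of the copy
  have e5 : X * Real.log 2 - 3 * d ≤
      CH q (fun w => t w.1.1) (fun w => (k w.1.1 w.1.2, (Y w.1.2, ln w.1.1))) := by
    have g1 : MI q (fun w => t w.1.1) (fun w => Y w.1.2) (fun w => ln w.1.1) ≤ d := by
      rw [MI_symm hn]
      unfold MI
      linarith
    have g2 : MI q (fun w => t w.1.1) (fun w => k w.1.1 w.1.2) (fun w => (Y w.1.2, ln w.1.1)) ≤
        d := by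
      rw [MI_symm hn]
      exact (MI_le_CH hn _ _ _).trans e4
    unfold MI at g1 g2
    have := h.tf
    linarith
  -- the time of the third sample
  have e6 : CH q (fun w => t w.2) (fun w => (ln w.2, w.1)) = CH p t ln := by
    have g := CH_glue_snd (Z₁ := fun w : Ω × Ω => ln w.2) (Z₂ := ln) (dbl_nonneg (b := B) h0) h0
      (hZ3 h0) t (Y := ln) (fun w : Ω × Ω => w) (fun _ _ _ _ e => e)
    exact g
  have e7 : CH q (fun w => t w.2) (fun w => (k w.1.1 w.1.2, (Y w.1.2, ln w.1.1))) ≤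
      X * Real.log 2 := by
    have g := CH_le_card hn hq.sum_one (fun w => t w.2)
      (fun w => (k w.1.1 w.1.2, (Y w.1.2, ln w.1.1))) (fun _ => Finset.Ico (0 : ℤ) (2 ^ X)) (by
        intro w hw
        obtain ⟨-, -, a3, -⟩ := q3_pos h0 hw
        rw [Finset.mem_Ico]
        exact h.t0 _ a3)
    rw [Ex_const hq.sum_one] at g
    refine g.trans (le_of_eq ?_)
    have : (Finset.Ico (0 : ℤ) (2 ^ X)).card = 2 ^ X := by
      rw [Int.card_Ico, sub_zero]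
      have : ((2 : ℤ) ^ X) = ((2 ^ X : ℕ) : ℤ) := by push_cast; rfl
      rw [this, Int.toNat_natCast]
    rw [this]
    push_cast
    rw [Real.log_pow]
  have e8 : MI q (fun w => t w.1.1) (fun w => t w.2)
      (fun w => (k w.1.1 w.1.2, (Y w.1.2, ln w.1.1))) ≤ d := by
    rw [MI_symm hn]
    unfold MI
    have g1 : CH q (fun w => t w.2) (fun w => (ln w.2, w.1)) ≤
        CH q (fun w => t w.2) (fun w => (t w.1.1, (k w.1.1 w.1.2, (Y w.1.2, ln w.1.1)))) := by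
      refine CH_mono_cond hn ?_
      intro w w' _ _ e
      simp only [Prod.mk.injEq] at e
      simp only [e.2]
    have := h.tf
    linarith
  unfold MI at e8
  have e9 : CH q (fun w => t w.1.1)
      (fun w => (t w.2, (k w.1.1 w.1.2, (Y w.1.2, ln w.1.1)))) =
      CH q (fun w => t w.1.1) (Wq ln t Y k) := by
    refine CH_congr hn ?_ ?_ ?_ ?_
    · intro w w' _ _ e
      exact (Prod.ext_iff.mp e).1
    · intro w w' _ _ e
      exact (Prod.ext_iff.mp e).1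
    · intro w w' _ _ e
      unfold Wq
      simp only [Prod.mk.injEq] at e ⊢
      tauto
    · intro w w' _ _ e
      unfold Wq at e
      simp only [Prod.mk.injEq] at e ⊢
      tauto
  linarith

/-- **The relation**: `V₃ = A + t₁ (v₁ - v₂)`, the number `A` and the difference of the velocities
are functions of the condition. -/
theorem crd_rel {p : Ω → ℝ} {B : Ω → β} {ln : Ω → Λ} {Y : Ω → υ} {S : Ω → σ} {t V dv : Ω → ℤ}
    {av : Ω → ℝ} {Nb : υ → Finset υ} {X : ℕ} {d κ₀ C : ℝ} (h : Lp p B ln Y S t Nb X d κ₀)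
    (hV : Crd p B ln t V dv av X C) {δ : Type} (k : Ω → Ω → δ) (f : δ → ℤ)
    (hk : ∀ ω ω', f (k ω ω') = dv ω' - dv ω) :
    Dp (q3 p B ln) (Wq ln t Y k) (fun w => t w.1.1) (fun w => V w.2)
      (fun w => av w.1.1 + t w.2 * (dv w.1.2 / 2 ^ X))
      (fun w => -(((dv w.1.2 : ℝ) - dv w.1.1) / 2 ^ X)) (4 * C) := by
  have h0 := h.law.nonneg
  have hd : ∀ w : (Ω × Ω) × Ω, (f (Wq ln t Y k w).2.2.2 : ℝ) = (dv w.1.2 : ℝ) - dv w.1.1 := by
    intro w
    show (f (k w.1.1 w.1.2) : ℝ) = _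
    rw [hk]
    push_cast
    ring
  refine ⟨?_, ?_, ?_⟩
  · intro w w' a b e
    have e1 : ln w.1.1 = ln w'.1.1 := congrArg (fun z => z.1) e
    have e2 : t w.2 = t w'.2 := congrArg (fun z => z.2.1) e
    have e3 := hV.da _ _ (q3_pos h0 a).1 (q3_pos h0 b).1 e1
    have e4 := hV.dd _ _ (q3_pos h0 a).1 (q3_pos h0 b).1 e1
    have e5 := hd w
    have e6 := hd w'
    rw [e] at e5
    have e7 : (dv w.1.2 : ℝ) = dv w'.1.2 := by
      rw [e5] at e6
      rw [e4] at e6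
      linarith
    simp only [e3, e2, e7]
  · intro w w' a b e
    have e5 := hd w
    have e6 := hd w'
    rw [e] at e5
    rw [e5] at e6
    simp only [e6]
  · intro w hw
    obtain ⟨a1, a2, a3, a4, a5⟩ := q3_pos h0 hw
    have g1 := hV.rel _ a1
    have g2 := hV.rel _ a2
    have g3 := hV.rel _ a3
    have g4 := hV.ball _ _ a1 a2 a4
    have g5 := h.tB _ _ a1 a2 a4
    have g6 := hV.da _ _ a2 a3 a5
    have g7 := hV.dd _ _ a2 a3 a5
    rw [← g6, ← g7] at g3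
    rw [← g5] at g2
    have e : (V w.2 : ℝ) - (av w.1.1 + t w.2 * (dv w.1.2 / 2 ^ X) + t w.1.1 *
        -(((dv w.1.2 : ℝ) - dv w.1.1) / 2 ^ X)) =
        ((V w.2 : ℝ) - (av w.1.2 + t w.2 * (dv w.1.2 / 2 ^ X))) +
        -(((V w.1.2 : ℝ) - (av w.1.2 + t w.1.1 * (dv w.1.2 / 2 ^ X)))) +
        ((V w.1.1 : ℝ) - (av w.1.1 + t w.1.1 * (dv w.1.1 / 2 ^ X))) +
        -((V w.1.1 : ℝ) - V w.1.2) := by ring
    rw [e]
    have t1 := abs_add_le (((V w.2 : ℝ) - (av w.1.2 + t w.2 * (dv w.1.2 / 2 ^ X))) +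
        -(((V w.1.2 : ℝ) - (av w.1.2 + t w.1.1 * (dv w.1.2 / 2 ^ X)))) +
        ((V w.1.1 : ℝ) - (av w.1.1 + t w.1.1 * (dv w.1.1 / 2 ^ X))))
        (-((V w.1.1 : ℝ) - V w.1.2))
    have t2 := abs_add_le (((V w.2 : ℝ) - (av w.1.2 + t w.2 * (dv w.1.2 / 2 ^ X))) +
        -(((V w.1.2 : ℝ) - (av w.1.2 + t w.1.1 * (dv w.1.2 / 2 ^ X)))))
        ((V w.1.1 : ℝ) - (av w.1.1 + t w.1.1 * (dv w.1.1 / 2 ^ X)))
    have t3 := abs_add_le ((V w.2 : ℝ) - (av w.1.2 + t w.2 * (dv w.1.2 / 2 ^ X)))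
        (-(((V w.1.2 : ℝ) - (av w.1.2 + t w.1.1 * (dv w.1.2 / 2 ^ X)))))
    rw [abs_neg] at t1 t3
    linarith

end Pool.LPX
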