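import Pool.Agent.H16.TT.Ev

/-!
# Displacements with a full time

`U = A_U + t k_u`, `Z = A_Z + t k_z` up to `C`, the numbers `A`, `k` are functions of `W` and the
time `t` is full given `W`. `disp_a`, `disp_b`: the blocks of digits of `U` and `Z` which are full
given `W`, compared with upper bounds for their entropies.
-/

set_option autoImplicit false

namespace Pool.LPX

open Finset Real
open Pool.Agent.H49.Ent Pool.Agent.H32.Dense Pool.STK Pool.POT
open Pool.K2S (Pe)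

variable {Ω τ σ κ : Type}

/-- The top `m` of `X` digits. -/
def tp (X m : ℕ) (z : ℤ) : ℤ := z / 2 ^ (X - m)

theorem tp_near (X m : ℕ) (z z' : ℤ) {L : ℝ} (h : |(z : ℝ) - z'| ≤ L * 2 ^ (X - m)) :
    |((tp X m z - tp X m z' : ℤ) : ℝ)| ≤ L + 1 := by
  have hP : (0 : ℝ) < 2 ^ (X - m) := by positivity
  have h1 : ∀ y : ℤ, (tp X m y : ℝ) * 2 ^ (X - m) ≤ y ∧
      (y : ℝ) < ((tp X m y : ℝ) + 1) * 2 ^ (X - m) := by
    intro y
    have hz : (0 : ℤ) < 2 ^ (X - m) := by positivity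
    have e1 := Int.ediv_mul_le y hz.ne'
    have e2 := Int.lt_ediv_add_one_mul_self y hz
    constructor
    · have : ((y / 2 ^ (X - m) * 2 ^ (X - m) : ℤ) : ℝ) ≤ y := by exact_mod_cast e1
      push_cast at this
      exact this
    · have : ((y : ℤ) : ℝ) < (((y / 2 ^ (X - m)) + 1) * 2 ^ (X - m) : ℤ) := by exact_mod_cast e2
      push_cast at this
      exact this
  obtain ⟨a1, a2⟩ := h1 z
  obtain ⟨b1, b2⟩ := h1 z'
  rw [abs_le] at h
  push_cast
  rw [abs_le]
  constructor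
  · have : (-(L + 1)) * 2 ^ (X - m) ≤ ((tp X m z : ℝ) - tp X m z') * 2 ^ (X - m) := by nlinarith
    exact le_of_mul_le_mul_right this hP
  · have : ((tp X m z : ℝ) - tp X m z') * 2 ^ (X - m) ≤ (L + 1) * 2 ^ (X - m) := by nlinarith
    exact le_of_mul_le_mul_right this hP

theorem of_tp_eq (X m : ℕ) {z z' : ℤ} (h : tp X m z = tp X m z') :
    |(z : ℝ) - z'| ≤ 2 ^ (X - m) := by
  have h1 : ∀ y : ℤ, (tp X m y : ℝ) * 2 ^ (X - m) ≤ y ∧
      (y : ℝ) < ((tp X m y : ℝ) + 1) * 2 ^ (X - m) := by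
    intro y
    have hz : (0 : ℤ) < 2 ^ (X - m) := by positivity
    have e1 := Int.ediv_mul_le y hz.ne'
    have e2 := Int.lt_ediv_add_one_mul_self y hz
    constructor
    · have : ((y / 2 ^ (X - m) * 2 ^ (X - m) : ℤ) : ℝ) ≤ y := by exact_mod_cast e1
      push_cast at this
      exact this
    · have : ((y : ℤ) : ℝ) < (((y / 2 ^ (X - m)) + 1) * 2 ^ (X - m) : ℤ) := by exact_mod_cast e2
      push_cast at this
      exact this
  obtain ⟨a1, a2⟩ := h1 z
  obtain ⟨b1, b2⟩ := h1 z'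
  rw [h] at a1 a2
  rw [abs_le]
  constructor <;> linarith

theorem tp_self (X : ℕ) (z : ℤ) : tp X X z = z := by
  unfold tp
  simp

variable [Fintype Ω] {q : Ω → ℝ}

/-- Few values. -/
theorem CH_few (hq : IsLaw q) (V : Ω → ℤ) (W : Ω → τ) {L : ℝ}
    (h : ∀ ω ω', 0 < q ω → 0 < q ω' → W ω = W ω' → |((V ω - V ω' : ℤ) : ℝ)| ≤ L) :
    CH q V W ≤ Real.log (2 * L + 1) := by
  have h1 := CH_le_int hq.nonneg hq.sum_one V W (fun _ => L) h
  rwa [Ex_const hq.sum_one] at h1

theorem CH_few_tp (hq : IsLaw q) (V : Ω → ℤ) (W : Ω → τ) {X m : ℕ} {L : ℝ}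
    (h : ∀ ω ω', 0 < q ω → 0 < q ω' → W ω = W ω' → |(V ω : ℝ) - V ω'| ≤ L * 2 ^ (X - m)) :
    CH q (fun ω => tp X m (V ω)) W ≤ Real.log (2 * L + 3) := by
  have h1 := CH_few hq (fun ω => tp X m (V ω)) W (L := L + 1)
    fun ω ω' a b e => tp_near X m _ _ (h ω ω' a b e)
  have h2 : 2 * (L + 1) + 1 = 2 * L + 3 := by ring
  rwa [h2] at h1

/-- The top digits of a full time are full. -/
theorem time_tp (hq : IsLaw q) (t : Ω → ℤ) (W : Ω → τ) {X r : ℕ} (hr : r ≤ X) {D : ℝ}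
    (full : X * Real.log 2 - D ≤ CH q t W) :
    r * Real.log 2 - D ≤ CH q (fun ω => tp X r (t ω)) W := by
  have h1 := CH_le_add hq.nonneg t (fun ω => tp X r (t ω)) W
  have h2 : CH q t (fun ω => (tp X r (t ω), W ω)) ≤ (X - r : ℕ) * Real.log 2 := by
    have := CH_le_card hq.nonneg hq.sum_one t (fun ω => (tp X r (t ω), W ω))
      (fun w => Finset.Ico (w.1 * 2 ^ (X - r)) (w.1 * 2 ^ (X - r) + 2 ^ (X - r))) (by
        intro ω _
        simp only [Finset.mem_Ico]
        have hz : (0 : ℤ) < 2 ^ (X - r) := by positivity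
        have e1 := Int.ediv_mul_le (t ω) hz.ne'
        have e2 := Int.lt_ediv_add_one_mul_self (t ω) hz
        constructor
        · exact e1
        · have : tp X r (t ω) = t ω / 2 ^ (X - r) := rfl
          rw [this]
          linarith)
    refine this.trans ?_
    have h3 : ∀ ω, Real.log (((Finset.Ico (tp X r (t ω) * 2 ^ (X - r))
        (tp X r (t ω) * 2 ^ (X - r) + 2 ^ (X - r))).card : ℕ) : ℝ) = (X - r : ℕ) * Real.log 2 := by
      intro ω
      rw [Int.card_Ico]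
      have : (tp X r (t ω) * 2 ^ (X - r) + 2 ^ (X - r) - tp X r (t ω) * 2 ^ (X - r)).toNat =
          2 ^ (X - r) := by
        rw [add_sub_cancel_left]
        have : ((2 : ℤ) ^ (X - r)) = ((2 ^ (X - r) : ℕ) : ℤ) := by push_cast; rfl
        rw [this, Int.toNat_natCast]
      rw [this]
      push_cast
      rw [Real.log_pow]
    simp only [h3]
    rw [Ex_const hq.sum_one]
  rw [Nat.cast_sub hr] at h2
  linarith

/-- The displacement. -/
structure Dp (q : Ω → ℝ) (W : Ω → τ) (t V : Ω → ℤ) (A k : Ω → ℝ) (C : ℝ) : Prop where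
  dA : Det q W A
  dk : Det q W k
  rel : ∀ ω, 0 < q ω → |(V ω : ℝ) - (A ω + t ω * k ω)| ≤ C

omit [Fintype Ω] in
theorem Dp.diff {W : Ω → τ} {t V : Ω → ℤ} {A k : Ω → ℝ} {C : ℝ} (h : Dp q W t V A k C)
    {ω ω' : Ω} (a : 0 < q ω) (b : 0 < q ω') (e : W ω = W ω') :
    |((V ω : ℝ) - V ω') - ((t ω : ℝ) - t ω') * k ω| ≤ 2 * C := by
  have h1 := h.rel ω a
  have h2 := h.rel ω' b
  have h3 := h.dA ω ω' a b e
  have h4 := h.dk ω ω' a b e
  rw [← h3, ← h4] at h2
  rw [abs_le] at h1 h2 ⊢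
  constructor <;> nlinarith

theorem pow_sub_le {X a : ℕ} {x c : ℝ} (_hc : 0 ≤ c) (h : |x| * 2 ^ a ≤ c) :
    |x| * 2 ^ X ≤ c * 2 ^ (X - a) := by
  rcases le_or_gt a X with h1 | h1
  · have : (2 : ℝ) ^ X = 2 ^ a * 2 ^ (X - a) := by rw [← pow_add]; congr 1; omega
    rw [this, ← mul_assoc]
    exact mul_le_mul_of_nonneg_right h (by positivity)
  · rw [Nat.sub_eq_zero_of_le h1.le, pow_zero, mul_one]
    refine le_trans ?_ h
    exact mul_le_mul_of_nonneg_left (pow_le_pow_right₀ (by norm_num) h1.le) (abs_nonneg _)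

/-- Digits above the displacement are few given `W`. -/
theorem Dp.few {W : Ω → τ} {t V : Ω → ℤ} {A k : Ω → ℝ} {C : ℝ} (hq : IsLaw q)
    (h : Dp q W t V A k C) (hC : 1 ≤ C) {X a m : ℕ}
    (ht : ∀ ω, 0 < q ω → 0 ≤ t ω ∧ t ω < 2 ^ X) (hk : ∀ ω, 0 < q ω → |k ω| * 2 ^ a ≤ C)
    (n : ℕ) (hn : m ≤ a + n) :
    CH q (fun ω => tp X m (V ω)) W ≤ n * Real.log 2 + Real.log (9 * C) := by
  have h1 := CH_few_tp hq V W (X := X) (m := m) (L := 3 * C * 2 ^ n) (by
    intro ω ω' x y e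
    have h2 := h.diff x y e
    have h3 : |((t ω : ℝ) - t ω')| ≤ 2 ^ X := by
      have e1 := ht ω x
      have e2 := ht ω' y
      have f1 : (0 : ℝ) ≤ t ω := by exact_mod_cast e1.1
      have f2 : (t ω : ℝ) < 2 ^ X := by exact_mod_cast e1.2
      have f3 : (0 : ℝ) ≤ t ω' := by exact_mod_cast e2.1
      have f4 : (t ω' : ℝ) < 2 ^ X := by exact_mod_cast e2.2
      rw [abs_le]
      constructor <;> linarith
    have h4 : |((t ω : ℝ) - t ω') * k ω| ≤ C * 2 ^ (X - a) := by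
      rw [abs_mul, mul_comm]
      exact (mul_le_mul_of_nonneg_left h3 (abs_nonneg _)).trans
        (pow_sub_le (by linarith) (hk ω x))
    have h5 : |(V ω : ℝ) - V ω'| ≤ 2 * C + C * 2 ^ (X - a) := by
      have := abs_le.1 h2
      have := abs_le.1 h4
      rw [abs_le]
      constructor <;> linarith
    refine h5.trans ?_
    have h6 : (2 : ℝ) ^ (X - a) ≤ 2 ^ n * 2 ^ (X - m) := by
      rw [← pow_add]
      exact pow_le_pow_right₀ (by norm_num) (by omega)
    have h7 : (1 : ℝ) ≤ 2 ^ n * 2 ^ (X - m) := by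
      rw [← pow_add]
      exact one_le_pow₀ (by norm_num)
    have h8 : 3 * C * 2 ^ n * 2 ^ (X - m) = 2 * C * (2 ^ n * 2 ^ (X - m)) +
      C * (2 ^ n * 2 ^ (X - m)) := by ring
    rw [h8]
    have hC0 : 0 ≤ C := by linarith
    exact add_le_add (le_mul_of_one_le_right (by positivity) h7)
      (mul_le_mul_of_nonneg_left h6 hC0))
  refine h1.trans ?_
  have h2 : (0 : ℝ) < 2 ^ n := by positivity
  have h3 : (1 : ℝ) ≤ 2 ^ n := one_le_pow₀ (by norm_num)
  rw [← Real.log_pow, ← Real.log_mul h2.ne' (by positivity)]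
  refine Real.log_le_log (by positivity) ?_
  nlinarith

/-- The top digits of the time are few given the digits of `V`. -/
theorem Dp.time {W : Ω → τ} {t V : Ω → ℤ} {A k : Ω → ℝ} {C : ℝ} (hq : IsLaw q)
    (h : Dp q W t V A k C) (hC : 1 ≤ C) {X a g m r : ℕ} (hmX : m ≤ X)
    (hk : ∀ ω, 0 < q ω → 1 ≤ |k ω| * 2 ^ (a + g)) (hr : r + a ≤ m) :
    CH q (fun ω => tp X r (t ω)) (fun ω => (tp X m (V ω), W ω)) ≤
      g * Real.log 2 + Real.log (9 * C) := by
  have h1 := CH_few_tp hq t (fun ω => (tp X m (V ω), W ω)) (X := X) (m := r)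
    (L := 3 * C * 2 ^ g) (by
    intro ω ω' x y e
    obtain ⟨e1, e2⟩ := Prod.ext_iff.mp e
    have h2 := h.diff x y e2
    have h3 := of_tp_eq X m e1
    have h4 : |(t ω : ℝ) - t ω'| * |k ω| ≤ 2 ^ (X - m) + 2 * C := by
      rw [← abs_mul]
      have := abs_le.1 h2
      have := abs_le.1 h3
      rw [abs_le]
      constructor <;> linarith
    have h5 : |(t ω : ℝ) - t ω'| ≤ (2 ^ (X - m) + 2 * C) * 2 ^ (a + g) := by
      have h6 := mul_le_mul_of_nonneg_right h4 (by positivity : (0 : ℝ) ≤ 2 ^ (a + g))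
      refine le_trans ?_ h6
      rw [mul_assoc]
      exact le_mul_of_one_le_right (abs_nonneg _) (hk ω x)
    refine h5.trans ?_
    have h7 : (1 : ℝ) ≤ 2 ^ (X - m) := one_le_pow₀ (by norm_num)
    have h8 : (2 : ℝ) ^ (X - m) * 2 ^ (a + g) ≤ 2 ^ g * 2 ^ (X - r) := by
      rw [← pow_add, ← pow_add]
      exact pow_le_pow_right₀ (by norm_num) (by omega)
    have hC0 : 0 ≤ C := by linarith
    have h9 : (2 ^ (X - m) + 2 * C) * 2 ^ (a + g) ≤ 3 * C * (2 ^ (X - m) * 2 ^ (a + g)) := by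
      rw [← mul_assoc]
      refine mul_le_mul_of_nonneg_right ?_ (by positivity)
      nlinarith
    refine h9.trans ?_
    have h10 : 3 * C * 2 ^ g * 2 ^ (X - r) = 3 * C * (2 ^ g * 2 ^ (X - r)) := by ring
    rw [h10]
    exact mul_le_mul_of_nonneg_left h8 (by positivity))
  refine h1.trans ?_
  have h2 : (0 : ℝ) < 2 ^ g := by positivity
  have h3 : (1 : ℝ) ≤ 2 ^ g := one_le_pow₀ (by norm_num)
  rw [← Real.log_pow, ← Real.log_mul h2.ne' (by positivity)]
  refine Real.log_le_log (by positivity) ?_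
  nlinarith

/-- **One block.** The digits `(a, m]` of `V` are full given `W`. -/
theorem disp_a {W : Ω → τ} {t V : Ω → ℤ} {A k : Ω → ℝ} {C D E β : ℝ} (hq : IsLaw q)
    (h : Dp q W t V A k C) (hC : 1 ≤ C) {X a g m : ℕ} (ham : a ≤ m) (hmX : m ≤ X)
    (ht : ∀ ω, 0 < q ω → 0 ≤ t ω ∧ t ω < 2 ^ X) (full : X * Real.log 2 - D ≤ CH q t W)
    (hk1 : ∀ ω, 0 < q ω → |k ω| * 2 ^ a ≤ C) (hk2 : ∀ ω, 0 < q ω → 1 ≤ |k ω| * 2 ^ (a + g))
    (K : Ω → κ) (hK : CH q K W ≤ E)
    (hup : CH q (fun ω => tp X m (V ω)) (fun ω => (tp X a (V ω), K ω)) ≤ β) :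
    ((m : ℝ) - a) * Real.log 2 ≤ β + D + E + g * Real.log 2 + 2 * Real.log (9 * C) := by
  have hn := hq.nonneg
  -- from above to `W`
  have h1 : CH q (fun ω => tp X m (V ω)) W ≤
      CH q (fun ω => (tp X a (V ω), K ω)) W +
        CH q (fun ω => tp X m (V ω)) (fun ω => ((tp X a (V ω), K ω), W ω)) := CH_le_add hn _ _ _
  have h2 : CH q (fun ω => tp X m (V ω)) (fun ω => ((tp X a (V ω), K ω), W ω)) ≤ β :=
    (CH_mono_cond hn fun _ _ _ _ e => (Prod.ext_iff.mp e).1).trans hup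
  have h3 : CH q (fun ω => (tp X a (V ω), K ω)) W ≤ Real.log (9 * C) + E := by
    refine (CH_subadd hn _ _ _).trans (add_le_add ?_ hK)
    have := h.few hq hC ht hk1 (m := a) 0 (by omega)
    simpa using this
  -- the time
  have h4 := CH_le_add hn (fun ω => tp X (m - a) (t ω)) (fun ω => tp X m (V ω)) W
  have h5 := h.time hq hC (m := m) (r := m - a) hmX hk2 (by omega)
  have h6 := time_tp hq t W (X := X) (r := m - a) (by omega) full
  rw [Nat.cast_sub ham] at h6
  linarith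

/-- **Two blocks.** The digits `(y, X]` of `Z`, `y = b + (m - a)`, are full given `W` and the
digits of `U` up to `m`. -/
theorem disp_b {W : Ω → τ} {t U Z : Ω → ℤ} {AU AZ ku kz : Ω → ℝ} {C D β : ℝ} {S : Ω → σ}
    (hq : IsLaw q) (hU : Dp q W t U AU ku C) (hZ : Dp q W t Z AZ kz C) (hC : 1 ≤ C)
    {X a b g m : ℕ} (hmX : m ≤ X) (hbX : b ≤ X)
    (ht : ∀ ω, 0 < q ω → 0 ≤ t ω ∧ t ω < 2 ^ X) (full : X * Real.log 2 - D ≤ CH q t W)
    (hu1 : ∀ ω, 0 < q ω → |ku ω| * 2 ^ a ≤ C)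
    (hu2 : a < m → ∀ ω, 0 < q ω → 1 ≤ |ku ω| * 2 ^ (a + g))
    (hz1 : ∀ ω, 0 < q ω → |kz ω| * 2 ^ b ≤ C) (hz2 : ∀ ω, 0 < q ω → 1 ≤ |kz ω| * 2 ^ (b + g))
    (hS : Det q W S)
    (hup : CH q Z (fun ω => (tp X (b + (m - a)) (Z ω), (tp X m (U ω), S ω))) ≤ β) :
    ((X : ℝ) - (b + (m - a : ℕ))) * Real.log 2 ≤
      β + D + 2 * g * Real.log 2 + 4 * Real.log (9 * C) := by
  have hn := hq.nonneg
  have hlog2 : 0 ≤ Real.log 2 := Real.log_nonneg (by norm_num)
  have hl9 : 0 ≤ Real.log (9 * C) := Real.log_nonneg (by linarith)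
  set y := b + (m - a) with hy
  set um : Ω → ℤ := fun ω => tp X m (U ω) with hum
  set zy : Ω → ℤ := fun ω => tp X y (Z ω) with hzy
  -- `U` up to `m`
  have h1 : CH q um W ≤ (m - a : ℕ) * Real.log 2 + Real.log (9 * C) :=
    hU.few hq hC ht hu1 (m := m) (m - a) (by omega)
  -- `Z` up to `y` given `W` and `U`
  have h2 : CH q zy (fun ω => (um ω, W ω)) ≤ g * Real.log 2 + 2 * Real.log (9 * C) := by
    rcases le_or_gt m a with hma | hma
    · have e : y = b := by omega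
      have := hZ.few hq hC ht hz1 (m := y) 0 (by omega)
      have h3 : CH q zy (fun ω => (um ω, W ω)) ≤ CH q zy W :=
        CH_mono_cond hn fun _ _ _ _ e => (Prod.ext_iff.mp e).2
      have h4 : 0 ≤ (g : ℝ) * Real.log 2 := by positivity
      simp only [Nat.cast_zero, zero_mul, zero_add] at this
      linarith
    · have h3 : ∀ ω ω', 0 < q ω → 0 < q ω' → (um ω, W ω) = (um ω', W ω') →
          |(Z ω : ℝ) - Z ω'| ≤ (5 * C ^ 2 * 2 ^ g) * 2 ^ (X - y) := by
        intro ω ω' x x' e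
        obtain ⟨e1, e2⟩ := Prod.ext_iff.mp e
        have g1 := hU.diff x x' e2
        have g2 := of_tp_eq X m e1
        have g3 : |(t ω : ℝ) - t ω'| * |ku ω| ≤ 2 ^ (X - m) + 2 * C := by
          rw [← abs_mul]
          have := abs_le.1 g1
          have := abs_le.1 g2
          rw [abs_le]
          constructor <;> linarith
        have g4 : |(t ω : ℝ) - t ω'| ≤ (2 ^ (X - m) + 2 * C) * 2 ^ (a + g) := by
          have h6 := mul_le_mul_of_nonneg_right g3 (by positivity : (0 : ℝ) ≤ 2 ^ (a + g))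
          refine le_trans ?_ h6
          rw [mul_assoc]
          exact le_mul_of_one_le_right (abs_nonneg _) (hu2 hma ω x)
        have g5 : (2 ^ (X - m) + 2 * C) * 2 ^ (a + g) ≤ 3 * C * 2 ^ (X - m + (a + g)) := by
          rw [pow_add (2 : ℝ) (X - m) (a + g), ← mul_assoc]
          refine mul_le_mul_of_nonneg_right ?_ (by positivity)
          have : (1 : ℝ) ≤ 2 ^ (X - m) := one_le_pow₀ (by norm_num)
          nlinarith
        have g6 := hZ.diff x x' e2
        have g7 : |((t ω : ℝ) - t ω') * kz ω| ≤ 3 * C * 2 ^ (X - m + (a + g)) * |kz ω| := by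
          rw [abs_mul]
          exact mul_le_mul_of_nonneg_right (g4.trans g5) (abs_nonneg _)
        have g8 : 3 * C * 2 ^ (X - m + (a + g)) * |kz ω| ≤ 3 * C ^ 2 * 2 ^ g * 2 ^ (X - y) := by
          have e3 := hz1 ω x
          rcases le_or_gt y X with hyX | hyX
          · have e4 : X - m + (a + g) = b + (g + (X - y)) := by omega
            rw [e4, pow_add (2 : ℝ) b, pow_add (2 : ℝ) g]
            calc 3 * C * (2 ^ b * (2 ^ g * 2 ^ (X - y))) * |kz ω| =
                (|kz ω| * 2 ^ b) * (3 * C * (2 ^ g * 2 ^ (X - y))) := by ring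
              _ ≤ C * (3 * C * (2 ^ g * 2 ^ (X - y))) :=
                  mul_le_mul_of_nonneg_right e3 (by positivity)
              _ = 3 * C ^ 2 * 2 ^ g * 2 ^ (X - y) := by ring
          · have e4 : (2 : ℝ) ^ (X - m + (a + g)) ≤ 2 ^ (b + g) :=
              pow_le_pow_right₀ (by norm_num) (by omega)
            rw [Nat.sub_eq_zero_of_le hyX.le, pow_zero, mul_one]
            calc 3 * C * 2 ^ (X - m + (a + g)) * |kz ω| ≤ 3 * C * 2 ^ (b + g) * |kz ω| := by
                  refine mul_le_mul_of_nonneg_right ?_ (abs_nonneg _)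
                  exact mul_le_mul_of_nonneg_left e4 (by positivity)
              _ = (|kz ω| * 2 ^ b) * (3 * C * 2 ^ g) := by rw [pow_add]; ring
              _ ≤ C * (3 * C * 2 ^ g) := mul_le_mul_of_nonneg_right e3 (by positivity)
              _ = 3 * C ^ 2 * 2 ^ g := by ring
        have g9 : |(Z ω : ℝ) - Z ω'| ≤ 2 * C + 3 * C ^ 2 * 2 ^ g * 2 ^ (X - y) := by
          have := abs_le.1 g6
          have := abs_le.1 (g7.trans g8)
          rw [abs_le]
          constructor <;> linarith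
        refine g9.trans ?_
        have g10 : (1 : ℝ) ≤ 2 ^ g * 2 ^ (X - y) := by
          rw [← pow_add]
          exact one_le_pow₀ (by norm_num)
        have g11 : 2 * C ≤ 2 * C ^ 2 * (2 ^ g * 2 ^ (X - y)) := by
          have : 2 * C ≤ 2 * C ^ 2 := by nlinarith
          exact this.trans (le_mul_of_one_le_right (by positivity) g10)
        nlinarith
      have h4 := CH_few_tp hq Z (fun ω => (um ω, W ω)) (X := X) (m := y) h3
      refine h4.trans ?_
      have h5 : (0 : ℝ) < 2 ^ g := by positivity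
      have h6 : (1 : ℝ) ≤ 2 ^ g := one_le_pow₀ (by norm_num)
      have h7 : (2 : ℝ) * Real.log (9 * C) = Real.log ((9 * C) ^ 2) := by
        rw [Real.log_pow]; push_cast; ring
      rw [h7, ← Real.log_pow, ← Real.log_mul h5.ne' (by positivity)]
      refine Real.log_le_log (by positivity) ?_
      nlinarith [mul_pos h5 (by positivity : 0 < C ^ 2), sq_nonneg C]
  -- the time
  have h3 : CH q (fun ω => tp X (X - b) (t ω)) W ≤
      CH q (fun ω => (zy ω, um ω)) W +
        CH q (fun ω => tp X (X - b) (t ω)) (fun ω => ((zy ω, um ω), W ω)) := CH_le_add hn _ _ _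
  have h4 : CH q (fun ω => (zy ω, um ω)) W ≤ (m - a : ℕ) * Real.log 2 + Real.log (9 * C) +
      (g * Real.log 2 + 2 * Real.log (9 * C)) := by
    rw [CH_chain hn]
    exact add_le_add h1 h2
  have h5 : CH q (fun ω => tp X (X - b) (t ω)) (fun ω => ((zy ω, um ω), W ω)) ≤
      CH q Z (fun ω => ((zy ω, um ω), W ω)) +
        CH q (fun ω => tp X (X - b) (t ω)) (fun ω => (Z ω, ((zy ω, um ω), W ω))) :=
    CH_le_add hn _ _ _
  have h6 : CH q Z (fun ω => ((zy ω, um ω), W ω)) ≤ β := by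
    refine (CH_mono_cond hn ?_).trans hup
    intro ω ω' x x' e
    simp only [Prod.mk.injEq] at e
    have := hS ω ω' x x' e.2
    simp only [Prod.mk.injEq]
    exact ⟨e.1.1, e.1.2, this⟩
  have h7 : CH q (fun ω => tp X (X - b) (t ω)) (fun ω => (Z ω, ((zy ω, um ω), W ω))) ≤
      g * Real.log 2 + Real.log (9 * C) := by
    have h8 := hZ.time hq hC (m := X) (r := X - b) le_rfl hz2 (by omega)
    refine le_trans (CH_mono_cond hn ?_) h8
    intro ω ω' x x' e
    simp only [Prod.mk.injEq] at e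
    simp only [Prod.mk.injEq]
    exact ⟨by rw [e.1], e.2.2⟩
  have h8 := time_tp hq t W (X := X) (r := X - b) (by omega) full
  rw [Nat.cast_sub hbX] at h8
  have e1 : (((m - a : ℕ) : ℕ) : ℝ) = ((m - a : ℕ) : ℝ) := rfl
  nlinarith

end Pool.LPX
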