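import Pool.Agent.H16.LP.Cell

/-!
# Lemma LP

The velocities of two coordinates of different speeds, jointly not full over the slow ones, are
few given the ball.
-/

set_option autoImplicit false

namespace Pool.LPX

open Finset Real
open Pool.Agent.H49.Ent Pool.Agent.H32.Dense Pool.STK Pool.POT Pool.TQ
open Pool.K2S (Pe)

variable {Ω β Λ υ σ : Type} [Fintype Ω]

/-- The hypotheses of LP: `U` slow, `Z` fast, `θ` = slope of `U` / slope of `Z`. -/
structure LpOk (p : Ω → ℝ) (B : Ω → β) (ln : Ω → Λ) (Y : Ω → υ) (S : Ω → σ) (t U Z du dz : Ω → ℤ)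
    (au az : Ω → ℝ) (Nb : υ → Finset υ) (X : ℕ) (C θ h ϖ d κ₀ : ℝ) : Prop where
  ok : Lp p B ln Y S t Nb X d κ₀
  u : Crd p B ln t U du au X C
  z : Crd p B ln t Z dz az X C
  dead : CH p (fun ω => (du ω, dz ω)) Y ≤ d
  nfz : NFz p U Z S X θ h ϖ d
  nfu : NFu p U Z S X θ h ϖ d

/-- The differences of the velocities. -/
def kk (du dz : Ω → ℤ) (ω ω' : Ω) : ℤ × ℤ := (du ω' - du ω, dz ω' - dz ω)

noncomputable def sl (X : ℕ) (dv : Ω → ℤ) (w : (Ω × Ω) × Ω) : ℝ :=
  -(((dv w.1.2 : ℝ) - dv w.1.1) / 2 ^ X)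

variable {p : Ω → ℝ} {B : Ω → β} {ln : Ω → Λ} {Y : Ω → υ} {S : Ω → σ} {t U Z du dz : Ω → ℤ}
  {au az : Ω → ℝ} {Nb : υ → Finset υ} {X : ℕ} {C θ h ϖ d κ₀ : ℝ}

omit [Fintype Ω] in
theorem Crd.sl_le {V dv : Ω → ℤ} {av : Ω → ℝ} (hV : Crd p B ln t V dv av X C) {w : (Ω × Ω) × Ω}
    (h1 : 0 < p w.1.1) (h2 : 0 < p w.1.2) : |sl X dv w| ≤ 2 * C := by
  have hP : (0 : ℝ) < 2 ^ X := by positivity
  unfold sl
  rw [abs_neg, abs_div, abs_of_pos hP, div_le_iff₀ hP]
  have e1 := abs_le.1 (hV.siz _ h1)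
  have e2 := abs_le.1 (hV.siz _ h2)
  rw [abs_le]
  constructor <;> nlinarith

/-- The total error. -/
noncomputable def Er (X g Kn : ℕ) (C ϖ' ϖ d : ℝ) : ℝ :=
  d + (1 / ϖ' / Kn + 1 / ϖ' * ϖ) * (X * Real.log 2 + Real.log 5) + Real.log (Kn + 1) +
    4 * d / ϖ' + 2 * g * Real.log 2 + 4 * Real.log (36 * C)

/-- **The sizes in a large cell.** -/
theorem cell_ok (H : LpOk p B ln Y S t U Z du dz au az Nb X C θ h ϖ d κ₀) (hC : 1 ≤ C)
    (hθ0 : 0 < θ) (hθ1 : θ < 1) (hh0 : 0 < h) (hh1 : h ≤ 1) (hϖ : 0 ≤ ϖ) (hd : 0 ≤ d) {g N Kn : ℕ}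
    (hN : X ≤ N * g) (hKn : 0 < Kn) {ϖ' : ℝ} (hϖ' : 0 < ϖ') (i j : ℕ)
    (hG : ϖ' ≤ Pe (q3 p B ln) (fun w => idx (4 * C) g N (sl X du w) = i ∧
      idx (4 * C) g N (sl X dz w) = j)) {e : ℝ}
    (he : Er X g Kn C ϖ' ϖ d ≤ e * (h * Real.log 2)) :
    (X : ℝ) - (j * g : ℕ) ≤ (2 * e + 2) / (1 - θ) ∧
      θ * X - (i * g : ℕ) ≤ (2 * e + 2) / (1 - θ) + 1 + e := by
  classical
  have hp := H.ok.law
  have h0 := hp.nonneg
  have hq := q3_law (B := B) (ln := ln) hp
  set q := q3 p B ln with hqd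
  set G : (Ω × Ω) × Ω → Prop := fun w => idx (4 * C) g N (sl X du w) = i ∧
      idx (4 * C) g N (sl X dz w) = j with hGd
  have hG0 : 0 < Pe q G := lt_of_lt_of_le hϖ' hG
  set W := Wq ln t Y (kk du dz) with hW
  have hl2 : 0 < Real.log 2 := Real.log_pos (by norm_num)
  have hl9 : 0 ≤ Real.log (36 * C) := Real.log_nonneg (by linarith)
  have hC1 : 1 ≤ 4 * C := by linarith
  -- the relations
  have hU := crd_rel H.ok H.u (kk du dz) (fun z => z.1) (fun _ _ => rfl)
  have hZ := crd_rel H.ok H.z (kk du dz) (fun z => z.2) (fun _ _ => rfl)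
  have full := time_full H.ok (fun ω => (du ω, dz ω))
    (fun ω ω' a b e => by rw [Prod.mk.injEq]; exact ⟨H.u.dd _ _ a b e, H.z.dd _ _ a b e⟩) H.dead
    (kk du dz) (fun x y => (y.1 - x.1, y.2 - x.2)) (fun _ _ => rfl)
  have hdG : Det q W G := by
    intro w w' a b e
    have e1 := hU.dk w w' a b e
    have e2 := hZ.dk w w' a b e
    have e3 : sl X du w = sl X du w' := e1
    have e4 : sl X dz w = sl X dz w' := e2
    simp only [hGd, e3, e4]
  -- the law of the cell
  set r := cond q G True with hr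
  have hrl : IsLaw r := cond_law hq.nonneg hG0
  have hrq : ∀ w, 0 < r w → 0 < q w := fun w hw => ((cond_pos_iff hq.nonneg G True w).1 hw).1
  have hrG : ∀ w, 0 < r w → G w := fun w hw => by
    have := ((cond_pos_iff hq.nonneg G True w).1 hw).2
    simpa using this
  have hUr := hU.mono hrq
  have hZr := hZ.mono hrq
  have ht0 : ∀ w, 0 < q w → 0 ≤ t w.1.1 ∧ t w.1.1 < 2 ^ X := fun w hw =>
    H.ok.t0 _ (q3_pos h0 hw).1
  have ht : ∀ w, 0 < r w → 0 ≤ t w.1.1 ∧ t w.1.1 < 2 ^ X := fun w hw => ht0 w (hrq w hw)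
  have fullr : X * Real.log 2 - 4 * d / ϖ' ≤ CH r (fun w => t w.1.1) W := by
    have h1 := time_ev hq (fun w => t w.1.1) W hdG ht0 full hG0
    refine le_trans ?_ h1
    have h2 : 4 * d / Pe q G ≤ 4 * d / ϖ' := div_le_div_of_nonneg_left (by positivity) hϖ' hG
    linarith
  -- sizes
  set a := i * g with ha
  set b := j * g with hb
  have su1 : ∀ w, 0 < r w → |sl X du w| * 2 ^ a ≤ 4 * C := by
    intro w hw
    obtain ⟨x1, x2, -⟩ := q3_pos h0 (hrq w hw)
    have e1 := idx_spec (C := 4 * C) (g := g) (N := N) ((H.u.sl_le x1 x2).trans (by linarith))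
    rw [(hrG w hw).1] at e1
    exact e1
  have sz1 : ∀ w, 0 < r w → |sl X dz w| * 2 ^ b ≤ 4 * C := by
    intro w hw
    obtain ⟨x1, x2, -⟩ := q3_pos h0 (hrq w hw)
    have e1 := idx_spec (C := 4 * C) (g := g) (N := N) ((H.z.sl_le x1 x2).trans (by linarith))
    rw [(hrG w hw).2] at e1
    exact e1
  have su2 : a < X → ∀ w, 0 < r w → 1 ≤ |sl X du w| * 2 ^ (a + g) := by
    intro haX w hw
    have e1 := (hrG w hw).1
    have e2 : i < N := by
      by_contra hc
      have : N * g ≤ i * g := Nat.mul_le_mul_right g (not_lt.1 hc)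
      omega
    have e3 := idx_low hC1 (g := g) (N := N) (x := sl X du w) (by rw [e1]; exact e2)
    rw [e1] at e3
    exact e3
  have sz2 : b < X → ∀ w, 0 < r w → 1 ≤ |sl X dz w| * 2 ^ (b + g) := by
    intro hbX w hw
    have e1 := (hrG w hw).2
    have e2 : j < N := by
      by_contra hc
      have : N * g ≤ j * g := Nat.mul_le_mul_right g (not_lt.1 hc)
      omega
    have e3 := idx_low hC1 (g := g) (N := N) (x := sl X dz w) (by rw [e1]; exact e2)
    rw [e1] at e3
    exact e3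
  -- the record of the third sample
  have hS : Det r W (fun w => S w.2) := by
    intro w w' x y e'
    obtain ⟨-, -, x3, -, x5⟩ := q3_pos h0 (hrq w x)
    obtain ⟨-, -, y3, -, y5⟩ := q3_pos h0 (hrq w' y)
    have e1 : t w.2 = t w'.2 := congrArg (fun z => z.2.1) e'
    have e2 : Y w.1.2 = Y w'.1.2 := congrArg (fun z => z.2.2.1) e'
    have e3 := H.ok.lY _ _ (q3_pos h0 (hrq w x)).2.1 x3 x5
    have e4 := H.ok.lY _ _ (q3_pos h0 (hrq w' y)).2.1 y3 y5
    have e6 : Y w.2 = Y w'.2 := by rw [← e3, e2, e4]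
    exact H.ok.SY _ _ x3 y3 (Prod.ext e6 e1)
  have h36 : (9 : ℝ) * (4 * C) = 36 * C := by ring
  have hEr0 : 0 ≤ Er X g Kn C ϖ' ϖ d := by
    unfold Er
    have e1 : 0 ≤ Real.log ((Kn : ℝ) + 1) := Real.log_nonneg (by
      have : (0 : ℝ) ≤ Kn := Nat.cast_nonneg _
      linarith)
    have e2 : 0 ≤ Real.log 5 := Real.log_nonneg (by norm_num)
    have e3 : 0 ≤ (1 / ϖ' / Kn + 1 / ϖ' * ϖ) * (X * Real.log 2 + Real.log 5) := by positivity
    have e4 : 0 ≤ 4 * d / ϖ' := by positivity
    have e5 : 0 ≤ 2 * (g : ℝ) * Real.log 2 := by positivity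
    linarith
  have he0 : 0 ≤ e := by
    by_contra hc
    push Not at hc
    have : e * (h * Real.log 2) < 0 := mul_neg_of_neg_of_pos hc (by positivity)
    linarith
  -- claim (a)
  have claimA : ∀ k m : ℕ, k ≤ X → k ≤ b → (m : ℝ) ≤ θ * k → (m : ℝ) ≤ a + e := by
    intro k m hkX hkb hm
    rcases Nat.lt_or_ge a m with ham | ham
    · have hmk : m ≤ k := by
        have h1 : (m : ℝ) ≤ k := by
          have : θ * k ≤ 1 * k := mul_le_mul_of_nonneg_right hθ1.le (Nat.cast_nonneg k)
          linarith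
        exact_mod_cast h1
      have hmX : m ≤ X := hmk.trans hkX
      have haX : a < X := lt_of_lt_of_le ham hmX
      set β := (1 - h) * ((m : ℝ) - a) * Real.log 2 + d with hβ
      have hma : (0 : ℝ) ≤ (m : ℝ) - a := by
        have : (a : ℝ) ≤ m := by exact_mod_cast ham.le
        linarith
      have hβ0 : 0 ≤ β := by
        have : 0 ≤ (1 - h) * ((m : ℝ) - a) * Real.log 2 :=
          mul_nonneg (mul_nonneg (by linarith) hma) hl2.le
        linarith
      have hup := up_row hp hq (q3_3 h0) hϖ' hG hϖ (V := U) hmX ham.le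
        (fun ω => (tp X k (Z ω), S ω)) hβ0 (fun G' hG' => H.nfu a k m ham.le hkX hm G' hG') hKn
      have hK : CH r (fun w => (tp X k (Z w.2), S w.2)) W ≤ Real.log (9 * (4 * C)) := by
        have g1 := CH_subadd hrl.nonneg (fun w => tp X k (Z w.2)) (fun w => S w.2) W
        rw [CH_eq_zero hrl.nonneg hS, add_zero] at g1
        refine g1.trans ?_
        have g2 := hZr.few hrl hC1 ht sz1 (m := k) 0 (by omega)
        simpa using g2
      have g3 := disp_a hrl hUr hC1 ham.le hmX ht fullr su1 (su2 haX)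
        (fun w => (tp X k (Z w.2), S w.2)) hK hup
      rw [h36] at g3
      have g4 : h * ((m : ℝ) - a) * Real.log 2 ≤ Er X g Kn C ϖ' ϖ d := by
        unfold Er
        have e5 : 0 ≤ (g : ℝ) * Real.log 2 := by positivity
        rw [hβ] at g3
        nlinarith
      have g5 : ((m : ℝ) - a) * (h * Real.log 2) ≤ e * (h * Real.log 2) := by
        refine le_trans (le_of_eq ?_) (g4.trans he)
        ring
      have g6 := le_of_mul_le_mul_right g5 (by positivity)
      linarith
    · have : (m : ℝ) ≤ a := by exact_mod_cast ham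
      linarith
  -- claim (b)
  have hθ' : 0 < 1 - θ := by linarith
  have claimB : (X : ℝ) - b ≤ (2 * e + 2) / (1 - θ) := by
    rcases Nat.lt_or_ge b X with hbX | hbX
    · -- the size of `a`
      have hA := claimA b ⌊θ * b⌋₊ hbX.le le_rfl (Nat.floor_le (by positivity))
      have hA1 := (Nat.lt_floor_add_one (θ * (b : ℝ))).le
      set m := ⌈θ * X⌉₊ with hm
      have hmX : m ≤ X := by
        rw [hm, Nat.ceil_le]
        exact mul_le_of_le_one_left (Nat.cast_nonneg X) hθ1.le
      have hm1 : θ * X ≤ m := Nat.le_ceil _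
      have hm2 : (m : ℝ) < θ * X + 1 := Nat.ceil_lt_add_one (by positivity)
      set n := m - a with hn
      have hnr : (n : ℝ) ≤ θ * ((X : ℝ) - b) + 2 + e := by
        have hXb : (0 : ℝ) ≤ (X : ℝ) - b := by
          have : (b : ℝ) ≤ X := by exact_mod_cast hbX.le
          linarith
        rcases Nat.lt_or_ge a m with ham | ham
        · rw [hn, Nat.cast_sub ham.le]
          linarith
        · rw [hn, Nat.sub_eq_zero_of_le ham, Nat.cast_zero]
          positivity
      have key : (X : ℝ) - (b + n) ≤ e := by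
        rcases Nat.lt_or_ge (b + n) X with hy | hy
        · set β := (1 - h) * ((X : ℝ) - (b + n : ℕ)) * Real.log 2 + d with hβ
          have hma : (0 : ℝ) ≤ (X : ℝ) - (b + n : ℕ) := by
            have : ((b + n : ℕ) : ℝ) ≤ X := by exact_mod_cast hy.le
            linarith
          have hβ0 : 0 ≤ β := by
            have : 0 ≤ (1 - h) * ((X : ℝ) - (b + n : ℕ)) * Real.log 2 :=
              mul_nonneg (mul_nonneg (by linarith) hma) hl2.le
            linarith
          have hup := up_row hp hq (q3_3 h0) hϖ' hG hϖ (V := Z) (m := X) (i := b + n) le_rfl hy.le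
            (fun ω => (tp X m (U ω), S ω)) hβ0
            (fun G' hG' => H.nfz (b + n) X m hy.le le_rfl hmX hm1 G' hG') hKn
          simp only [tp_self] at hup
          have g3 := disp_b hrl hUr hZr hC1 (X := X) (a := a) (b := b) (g := g) (m := m) hmX
            hbX.le ht fullr su1 (fun ham => su2 (lt_of_lt_of_le ham hmX)) sz1 (sz2 hbX) hS hup
          rw [h36] at g3
          have g4 : h * ((X : ℝ) - (b + n : ℕ)) * Real.log 2 ≤ Er X g Kn C ϖ' ϖ d := by
            unfold Er
            rw [hβ] at g3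
            push_cast at g3 ⊢
            nlinarith
          have g5 : ((X : ℝ) - (b + n : ℕ)) * (h * Real.log 2) ≤ e * (h * Real.log 2) := by
            refine le_trans (le_of_eq ?_) (g4.trans he)
            ring
          have g6 := le_of_mul_le_mul_right g5 (by positivity)
          push_cast at g6
          linarith
        · have : (X : ℝ) ≤ b + n := by exact_mod_cast hy
          linarith
      rw [le_div_iff₀ hθ']
      nlinarith
    · have h1 : (X : ℝ) - b ≤ 0 := by
        have : (X : ℝ) ≤ b := by exact_mod_cast hbX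
        linarith
      exact h1.trans (by positivity)
  refine ⟨claimB, ?_⟩
  -- the size of `a`
  set k := min b X with hk
  have hA := claimA k ⌊θ * k⌋₊ (min_le_right _ _) (min_le_left _ _) (Nat.floor_le (by positivity))
  have hA1 := (Nat.lt_floor_add_one (θ * (k : ℝ))).le
  have hkr : (X : ℝ) - k ≤ (2 * e + 2) / (1 - θ) := by
    rcases le_or_gt b X with h1 | h1
    · have : k = b := by rw [hk]; exact min_eq_left h1
      rw [this]
      exact claimB
    · have : k = X := by rw [hk]; exact min_eq_right h1.le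
      rw [this, sub_self]
      positivity
  have hkX : (k : ℝ) ≤ X := by exact_mod_cast min_le_right b X
  have : θ * ((X : ℝ) - k) ≤ 1 * ((X : ℝ) - k) := by
    refine mul_le_mul_of_nonneg_right hθ1.le ?_
    linarith
  nlinarith

end Pool.LPX
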