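import Pool.Agent.H16.LP.Alv

/-!
# Lemma LP, function form: two lines over one ball have near velocities
-/

set_option autoImplicit false

namespace Pool.LPX

open Finset Real
open Pool.Agent.H49.Ent Pool.Agent.H32.Dense Pool.STK Pool.POT Pool.TQ
open Pool.K2S (Pe)

section

variable {Ω β Λ υ σ : Type} [Fintype Ω]

variable {p : Ω → ℝ} {B : Ω → β} {ln : Ω → Λ} {Y : Ω → υ} {S : Ω → σ} {t U Z du dz : Ω → ℤ}
  {au az : Ω → ℝ} {Nb : υ → Finset υ} {X : ℕ} {C θ h ϖ d κ₀ : ℝ}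

open Classical in
/-- Two copies over one ball, with all the numbers. -/
theorem lp_nearN (H : LpOf p B ln Y S t U Z du dz au az Nb X C θ h ϖ d κ₀) (hC : 1 ≤ C)
    (hθ0 : 0 < θ) (hθ1 : θ < 1) (hh0 : 0 < h) (hh1 : h ≤ 1) (hϖ : 0 ≤ ϖ) (hd : 0 ≤ d) {g N Kn : ℕ}
    (hN : X ≤ N * g) (hKn : 0 < Kn) {ϖ' : ℝ} (hϖ' : 0 < ϖ') {e : ℝ}
    (he : Er X g Kn C ϖ' ϖ d ≤ e * (h * Real.log 2)) {n : ℕ}
    (hn : (2 * e + 2) / (1 - θ) + 1 + e ≤ n) (he0 : 0 ≤ e) {T : ℝ} (hT : 4 * C * 2 ^ n + 1 ≤ T) :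
    Ex (dbl p B) (fun w => if |(dz w.1 : ℝ) - dz w.2| ≤ T ∧
      |(tp X ⌊θ * X⌋₊ (du w.1) : ℝ) - tp X ⌊θ * X⌋₊ (du w.2)| ≤ T then 0 else 1) ≤
      (N + 1) ^ 2 * ϖ' := by
  classical
  have hp := H.ok.law
  have h0 := hp.nonneg
  have hq := q3_law (B := B) (ln := ln) hp
  set q := q3 p B ln with hqd
  set P : ℕ → ℕ → Prop := fun i j => X ≤ j * g + n ∧ ⌊θ * X⌋₊ ≤ i * g + n with hP
  set I : (Ω × Ω) × Ω → ℕ := fun w => idx (4 * C) g N (sl X du w) with hI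
  set J : (Ω × Ω) × Ω → ℕ := fun w => idx (4 * C) g N (sl X dz w) with hJ
  have hbad := bad_le (q := q) N I J (fun _ => idx_le _ _ _ _) (fun _ => idx_le _ _ _ _) hϖ'.le P (by
    intro i j hij
    obtain ⟨h1, h2⟩ := cell_okF H hC hθ0 hθ1 hh0 hh1 hϖ hd hN hKn hϖ' i j hij he
    have hX : (0 : ℝ) ≤ X := Nat.cast_nonneg X
    constructor
    · have : (X : ℝ) ≤ ((j * g + n : ℕ) : ℝ) := by
        push_cast at h1 ⊢
        linarith
      exact_mod_cast this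
    · have h3 := Nat.floor_le (by positivity : 0 ≤ θ * (X : ℝ))
      have : ((⌊θ * X⌋₊ : ℕ) : ℝ) ≤ ((i * g + n : ℕ) : ℝ) := by
        push_cast at h2 ⊢
        linarith
      exact_mod_cast this)
  have hϖN : 0 ≤ ((N : ℝ) + 1) ^ 2 * ϖ' := by positivity
  -- the differences of the velocities
  have hdif : ∀ (dv : Ω → ℤ) (a : ℕ) (w : (Ω × Ω) × Ω), |sl X dv w| * 2 ^ a ≤ 4 * C →
      |(dv w.1.1 : ℝ) - dv w.1.2| ≤ 4 * C * 2 ^ (X - a) := by
    intro dv a w h1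
    have h2 := pow_sub_le (X := X) (by linarith : (0 : ℝ) ≤ 4 * C) h1
    have hPX : (0 : ℝ) < 2 ^ X := by positivity
    have h3 : |sl X dv w| * 2 ^ X = |(dv w.1.1 : ℝ) - dv w.1.2| := by
      unfold sl
      rw [abs_neg, abs_div, abs_of_pos hPX, div_mul_cancel₀ _ hPX.ne', abs_sub_comm]
    rwa [h3] at h2
  have hz : ∀ w : (Ω × Ω) × Ω, 0 < q w → P (I w) (J w) →
      |(dz w.1.1 : ℝ) - dz w.1.2| ≤ 4 * C * 2 ^ n := by
    intro w hw hPw
    obtain ⟨x1, x2, -⟩ := q3_pos h0 hw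
    have h1 : |sl X dz w| ≤ 4 * C := (H.z.sl_le x1 x2).trans (by linarith)
    have h2 : |sl X dz w| * 2 ^ (J w * g) ≤ 4 * C := idx_spec h1
    refine (hdif dz (J w * g) w h2).trans ?_
    refine mul_le_mul_of_nonneg_left (pow_le_pow_right₀ (by norm_num) ?_) (by positivity)
    have h3 : X ≤ J w * g + n := hPw.1
    omega
  have hu : ∀ w : (Ω × Ω) × Ω, 0 < q w → P (I w) (J w) →
      |(tp X ⌊θ * X⌋₊ (du w.1.1) : ℝ) - tp X ⌊θ * X⌋₊ (du w.1.2)| ≤ 4 * C * 2 ^ n + 1 := by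
    intro w hw hPw
    obtain ⟨x1, x2, -⟩ := q3_pos h0 hw
    have h1 : |sl X du w| ≤ 4 * C := (H.u.sl_le x1 x2).trans (by linarith)
    have h2 : |sl X du w| * 2 ^ (I w * g) ≤ 4 * C := idx_spec h1
    have e1 := hdif du (I w * g) w h2
    rw [← Int.cast_sub]
    refine tp_near X ⌊θ * X⌋₊ (du w.1.1) (du w.1.2) (L := 4 * C * 2 ^ n) ?_
    refine e1.trans ?_
    rw [mul_assoc (4 * C) (2 ^ n), ← pow_add]
    refine mul_le_mul_of_nonneg_left (pow_le_pow_right₀ (by norm_num) ?_) (by positivity)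
    have h3 : ⌊θ * X⌋₊ ≤ I w * g + n := hPw.2
    omega
  have e1 := (q3_12 (B := B) (ln := ln) h0).Ex
      (fun w : Ω × Ω => if |(dz w.1 : ℝ) - dz w.2| ≤ T ∧
      |(tp X ⌊θ * X⌋₊ (du w.1) : ℝ) - tp X ⌊θ * X⌋₊ (du w.2)| ≤ T then (0 : ℝ) else 1)
  rw [← e1]
  refine le_trans (Ex_mono hq.nonneg fun w hw => ?_) hbad
  by_cases h1 : P (I w) (J w)
  · rw [if_pos ⟨(hz w hw h1).trans (by linarith), (hu w hw h1).trans hT⟩]
    split_ifs <;> norm_num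
  · rw [if_neg h1]
    split_ifs <;> norm_num

end

open Classical in
/-- **Lemma LP, function form.** Off a set of pairs of mass `ε`, two lines over one ball have the
same velocity of the fast coordinate up to `2 ^ (ε X)`, and that of the slow one to `θ X` digits. -/
theorem lp_nearF (C θ h ε : ℝ) (hC : 1 ≤ C) (hθ0 : 0 < θ) (hθ1 : θ < 1) (hh0 : 0 < h)
    (hh1 : h ≤ 1) (hε : 0 < ε) : ∃ κ ϖ : ℝ, 0 < κ ∧ 0 < ϖ ∧ ∃ X₀ : ℕ,
    ∀ {Ω β Λ υ σ : Type} [Fintype Ω] {p : Ω → ℝ} {B : Ω → β} {ln : Ω → Λ} {Y : Ω → υ} {S : Ω → σ}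
    {t U Z du dz : Ω → ℤ} {au az : Ω → ℝ} {Nb : υ → Finset υ} {X : ℕ} {d κ₀ : ℝ},
    LpOf p B ln Y S t U Z du dz au az Nb X C θ h ϖ d κ₀ → X₀ ≤ X → 0 ≤ d → d ≤ κ * X →
    Ex (dbl p B) (fun w => if |(dz w.1 : ℝ) - dz w.2| ≤ (2 : ℝ) ^ (ε * X) ∧
      |(tp X ⌊θ * X⌋₊ (du w.1) : ℝ) - tp X ⌊θ * X⌋₊ (du w.2)| ≤ (2 : ℝ) ^ (ε * X)
      then 0 else 1) ≤ ε := by
  have hl2 : 0 < Real.log 2 := Real.log_pos (by norm_num)
  have hl2' : Real.log 2 ≤ 1 := by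
    have := Real.log_le_sub_one_of_pos (by norm_num : (0 : ℝ) < 2)
    linarith
  have hθ' : 0 < 1 - θ := by linarith
  set Q := 3 / (h * (1 - θ)) with hQ
  have hQ0 : 0 < Q := by positivity
  set η := ε / (16 * Q) with hη
  have hη0 : 0 < η := by positivity
  set N := ⌈2 / η⌉₊ with hN
  have hNη : 2 / η ≤ N := Nat.le_ceil _
  set ϖ' := ε / (8 * ((N : ℝ) + 1) ^ 2) with hϖ'
  have hϖ'0 : 0 < ϖ' := by positivity
  set Kn := ⌈16 * Q / (ε * ϖ')⌉₊ + 1 with hKn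
  have hKn0 : 0 < Kn := Nat.succ_pos _
  have hKnr : 16 * Q / (ε * ϖ') ≤ Kn := by
    have := Nat.le_ceil (16 * Q / (ε * ϖ'))
    rw [hKn]
    push_cast
    linarith
  set ϖ := ε * ϖ' / (16 * Q) with hϖ
  have hϖ0 : 0 < ϖ := by positivity
  set κ := ε / (8 * Q * (1 + 4 / ϖ')) with hκ
  have hκ0 : 0 < κ := by positivity
  set c0 := Q * ((1 / ϖ' / Kn + 1 / ϖ' * ϖ) * Real.log 5 + Real.log (Kn + 1) +
    4 * Real.log (36 * C)) + 5 * Q + Real.log 2 + Real.log (11 * C) +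
    ((N : ℝ) + 1) ^ 2 * ϖ' * Real.log (5 * C) with hc0
  refine ⟨κ, ϖ, hκ0, hϖ0, max ⌈2 / η⌉₊ ⌈8 * c0 / ε⌉₊, ?_⟩
  intro Ω β Λ υ σ _ p B ln Y S t U Z du dz au az Nb X d κ₀ H hX hd hdκ
  have hX1 : 2 / η ≤ X := by
    have h1 : ⌈2 / η⌉₊ ≤ X := (le_max_left _ _).trans hX
    exact (Nat.le_ceil _).trans (by exact_mod_cast h1)
  have hX2 : 8 * c0 / ε ≤ X := by
    have h1 : ⌈8 * c0 / ε⌉₊ ≤ X := (le_max_right _ _).trans hX
    exact (Nat.le_ceil _).trans (by exact_mod_cast h1)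
  have hX0 : (0 : ℝ) ≤ X := Nat.cast_nonneg X
  have hηX : 2 ≤ η * X := by
    rw [div_le_iff₀ hη0] at hX1
    linarith
  set g := ⌊η * X⌋₊ with hg
  have hg1 : (g : ℝ) ≤ η * X := Nat.floor_le (by positivity)
  have hg2 : η * X / 2 ≤ g := by
    have := Nat.lt_floor_add_one (η * (X : ℝ))
    linarith
  have hNg : X ≤ N * g := by
    have h1 : (X : ℝ) ≤ N * g := by
      have h2 : 2 / η * (η * X / 2) ≤ N * g :=
        mul_le_mul hNη hg2 (by positivity) (Nat.cast_nonneg N)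
      have h3 : 2 / η * (η * X / 2) = X := by field_simp
      linarith
    exact_mod_cast h1
  set E := Er X g Kn C ϖ' ϖ d with hE
  have hlK : 0 ≤ Real.log ((Kn : ℝ) + 1) := Real.log_nonneg (by
    have : (0 : ℝ) ≤ Kn := Nat.cast_nonneg _
    linarith)
  have hl5 : 0 ≤ Real.log 5 := Real.log_nonneg (by norm_num)
  have hl36 : 0 ≤ Real.log (36 * C) := Real.log_nonneg (by linarith)
  have hl5C : 0 ≤ Real.log (5 * C) := Real.log_nonneg (by linarith)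
  have hE0 : 0 ≤ E := by
    rw [hE]
    unfold Er
    positivity
  set e := E / (h * Real.log 2) with he
  have he0 : 0 ≤ e := by positivity
  have heE : E ≤ e * (h * Real.log 2) := by
    rw [he, div_mul_cancel₀ _ (by positivity)]
  set n := ⌈(2 * e + 2) / (1 - θ) + 1 + e⌉₊ with hn
  have hn1 : (2 * e + 2) / (1 - θ) + 1 + e ≤ n := Nat.le_ceil _
  have hn2 : (n : ℝ) ≤ (2 * e + 2) / (1 - θ) + 2 + e := by
    have := (Nat.ceil_lt_add_one (by positivity : 0 ≤ (2 * e + 2) / (1 - θ) + 1 + e)).le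
    linarith
  -- the numbers
  have hnl : n * Real.log 2 ≤ Q * E + 5 * Q := by
    have h1 : (n : ℝ) ≤ (3 * e + 4) / (1 - θ) := by
      refine hn2.trans ?_
      have h2 : 2 + e ≤ (2 + e) / (1 - θ) := by
        rw [le_div_iff₀ hθ']
        nlinarith
      have h3 : (2 * e + 2) / (1 - θ) + (2 + e) / (1 - θ) = (3 * e + 4) / (1 - θ) := by
        rw [← add_div]
        congr 1
        ring
      linarith
    have h2 := mul_le_mul_of_nonneg_right h1 hl2.le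
    refine h2.trans ?_
    have h3 : (3 * e + 4) / (1 - θ) * Real.log 2 =
        3 * (e * (h * Real.log 2)) / (h * (1 - θ)) + 4 * Real.log 2 / (1 - θ) := by
      field_simp
    have h4 : e * (h * Real.log 2) = E := by rw [he, div_mul_cancel₀ _ (by positivity)]
    rw [h3, h4]
    have h5 : 3 * E / (h * (1 - θ)) = Q * E := by rw [hQ]; ring
    have h6 : 4 * Real.log 2 / (1 - θ) ≤ 5 * Q := by
      rw [hQ, div_le_iff₀ hθ']
      have h7 : 5 * (3 / (h * (1 - θ))) * (1 - θ) = 15 / h := by field_simp; norm_num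
      rw [h7]
      have h8 : (15 : ℝ) ≤ 15 / h := by
        rw [le_div_iff₀ hh0]
        linarith
      linarith
    linarith
  have hQE : Q * E ≤ ε / 8 * X + (ε / 8 * X + ε / 8 * X) + Q * ((1 / ϖ' / Kn + 1 / ϖ' * ϖ) *
      Real.log 5 + Real.log (Kn + 1) + 4 * Real.log (36 * C)) := by
    rw [hE]
    unfold Er
    have h1 : Q * (d + 4 * d / ϖ') ≤ ε / 8 * X := by
      have h2 : Q * (d + 4 * d / ϖ') = Q * (1 + 4 / ϖ') * d := by ring
      rw [h2]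
      have h3 : Q * (1 + 4 / ϖ') * d ≤ Q * (1 + 4 / ϖ') * (κ * X) :=
        mul_le_mul_of_nonneg_left hdκ (by positivity)
      have h4 : Q * (1 + 4 / ϖ') * (κ * X) = ε / 8 * X := by
        rw [hκ]
        field_simp
      linarith
    have h5 : Q * ((1 / ϖ' / Kn + 1 / ϖ' * ϖ) * (X * Real.log 2)) ≤ ε / 8 * X := by
      have h6 : Q * (1 / ϖ' / Kn) ≤ ε / 16 := by
        have h7 : 16 * Q ≤ Kn * (ε * ϖ') := by
          rwa [div_le_iff₀ (by positivity)] at hKnr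
        have h8 : Q * (1 / ϖ' / Kn) = Q / (ϖ' * Kn) := by
          field_simp
        rw [h8, div_le_iff₀ (by positivity)]
        linarith
      have h9 : Q * (1 / ϖ' * ϖ) = ε / 16 := by
        rw [hϖ]
        field_simp
      have h10 : Q * (1 / ϖ' / Kn + 1 / ϖ' * ϖ) ≤ ε / 8 := by
        rw [mul_add, h9]
        linarith
      have h11 : Q * ((1 / ϖ' / Kn + 1 / ϖ' * ϖ) * (X * Real.log 2)) =
          Q * (1 / ϖ' / Kn + 1 / ϖ' * ϖ) * (X * Real.log 2) := by ring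
      rw [h11]
      refine (mul_le_mul_of_nonneg_right h10 (by positivity)).trans ?_
      refine mul_le_mul_of_nonneg_left ?_ (by positivity)
      exact mul_le_of_le_one_right hX0 hl2'
    have h12 : Q * (2 * g * Real.log 2) ≤ ε / 8 * X := by
      have h13 : Q * (2 * g * Real.log 2) ≤ Q * (2 * (η * X) * 1) := by
        refine mul_le_mul_of_nonneg_left ?_ hQ0.le
        exact mul_le_mul (by linarith) hl2' hl2.le (by positivity)
      have h14 : Q * (2 * (η * X) * 1) = ε / 8 * X := by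
        rw [hη]
        field_simp
        ring
      linarith
    linarith
  have hN2 : ((N : ℝ) + 1) ^ 2 * ϖ' = ε / 8 := by
    rw [hϖ']
    field_simp
  have hc : c0 ≤ ε / 8 * X := by
    rw [div_le_iff₀ hε] at hX2
    linarith
  have hln : (4 * C * 2 ^ n + 1 : ℝ) ≤ (2 : ℝ) ^ (ε * X) := by
    have h1 : (1 : ℝ) ≤ 2 ^ n := one_le_pow₀ (by norm_num)
    have h2 : (4 * C * 2 ^ n + 1 : ℝ) ≤ 11 * C * 2 ^ n := by nlinarith
    refine h2.trans ?_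
    have h3 : Real.log (11 * C * 2 ^ n) ≤ Real.log ((2 : ℝ) ^ (ε * X)) := by
      rw [Real.log_mul (by positivity) (by positivity), Real.log_pow,
        Real.log_rpow (by norm_num)]
      have h4 : Real.log (11 * C) + n * Real.log 2 ≤ ε / 8 * X + (3 * (ε / 8)) * X := by
        rw [hc0] at hc
        have h5 : 0 ≤ Real.log (11 * C) := Real.log_nonneg (by linarith)
        have h6 : 0 ≤ ((N : ℝ) + 1) ^ 2 * ϖ' * Real.log (5 * C) := by positivity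
        have h7 : 0 ≤ Real.log 2 := hl2.le
        linarith
      have h8 : ε / 8 * X + (3 * (ε / 8)) * X ≤ ε * X * Real.log 2 := by
        have h9 := Real.log_two_gt_d9
        have h10 : 0 ≤ ε * X := by positivity
        nlinarith
      linarith
    exact (Real.log_le_log_iff (by positivity) (by positivity)).1 h3
  have key := lp_nearN H hC hθ0 hθ1 hh0 hh1 hϖ0.le hd hNg hKn0 hϖ'0 heE hn1 he0 hln
  refine key.trans ?_
  rw [hN2]
  linarith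

open Classical in
/-- **Lemma LP, alive or dead, function form.** -/
theorem lp_near (C θ h ε : ℝ) (hC : 1 ≤ C) (hθ0 : 0 < θ) (hθ1 : θ < 1) (hh0 : 0 < h)
    (hh1 : h ≤ 1) (hε : 0 < ε) : ∃ κ ϖ : ℝ, 0 < κ ∧ 0 < ϖ ∧ ∃ X₀ : ℕ,
    ∀ {Ω β Λ υ σ ν : Type} [Fintype Ω] {p : Ω → ℝ} {B : Ω → β} {ln : Ω → Λ} {Y : Ω → υ}
    {S : Ω → σ} {t U Z du dz : Ω → ℤ} {nat : Ω → ν} {au az : Ω → ℝ} {Nb : υ → Finset υ} {X : ℕ}
    {d κ₀ : ℝ}, LpOi p B ln Y S t U Z du dz nat au az Nb X C θ h ϖ d κ₀ → X₀ ≤ X → 0 ≤ d →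
    d ≤ κ * X →
    Ex (dbl p B) (fun w => if |(dz w.1 : ℝ) - dz w.2| ≤ (2 : ℝ) ^ (ε * X) ∧
      |(tp X ⌊θ * X⌋₊ (du w.1) : ℝ) - tp X ⌊θ * X⌋₊ (du w.2)| ≤ (2 : ℝ) ^ (ε * X)
      then 0 else 1) ≤ ε := by
  obtain ⟨κ, ϖ, h1, h2, X₀, h3⟩ := lp_nearF C θ h ε hC hθ0 hθ1 hh0 hh1 hε
  exact ⟨κ, ϖ, h1, h2, X₀, fun H hX hd hdκ => h3 H.of hX hd hdκ⟩

end Pool.LPX
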